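import Mathlib

/-!
# Gap principle for MP_b24f15_nt: definitions

`tm n = (-1)^(s_2(n))`, `cc n = t_n t_{n-1}`, `(X n, Y n)` with `X 0 = 0, Y 0 = 1`,
`X (n+1) = (1 + cc (n+1)) X n + Y n`, `Y (n+1) = X n + Y n`.
Then `|h_{4n}| = X n`, `|h_{4n+1}| = Y n`, `|h_{4n+2}| = Y (n+1)`, `|h_{4n+3}| = X n`.
-/

set_option autoImplicit false

namespace Pool.Agent.Lib.MP_b24f15_nt.Gap

/-- the Thue-Morse sign -/
def tm (n : ℕ) : ℤ := (-1) ^ (Nat.digits 2 n).sum

/-- the product of two consecutive signs -/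
def cc (n : ℕ) : ℤ := tm n * tm (n - 1)

/-- the pair `(X n, Y n)` -/
def W : ℕ → ℤ × ℤ
  | 0 => (0, 1)
  | (n + 1) => ((1 + cc (n + 1)) * (W n).1 + (W n).2, (W n).1 + (W n).2)

/-- `X n = |h_{4n}|` -/
def X (n : ℕ) : ℤ := (W n).1

/-- `Y n = |h_{4n+1}|` -/
def Y (n : ℕ) : ℤ := (W n).2

theorem X_zero : X 0 = 0 := rfl
theorem Y_zero : Y 0 = 1 := rfl
theorem X_succ (n : ℕ) : X (n + 1) = (1 + cc (n + 1)) * X n + Y n := rfl
theorem Y_succ (n : ℕ) : Y (n + 1) = X n + Y n := rfl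

/-- recursion of the sign -/
theorem tm_rec (n : ℕ) : tm n = (-1) ^ (n % 2) * tm (n / 2) := by
  rcases Nat.eq_zero_or_pos n with h | h
  · subst h; simp [tm]
  · unfold tm
    rw [Nat.digits_def' (by norm_num) h, List.sum_cons, pow_add]

theorem tm_zero : tm 0 = 1 := by simp [tm]

theorem tm_two_mul (n : ℕ) : tm (2 * n) = tm n := by
  rw [tm_rec (2 * n)]
  have h1 : 2 * n % 2 = 0 := by omega
  have h2 : 2 * n / 2 = n := by omega
  rw [h1, h2]; simp

theorem tm_two_mul_add_one (n : ℕ) : tm (2 * n + 1) = - tm n := by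
  rw [tm_rec (2 * n + 1)]
  have h1 : (2 * n + 1) % 2 = 1 := by omega
  have h2 : (2 * n + 1) / 2 = n := by omega
  rw [h1, h2]; simp

theorem tm_sq (n : ℕ) : tm n * tm n = 1 := by
  unfold tm
  rw [← pow_add, ← two_mul, pow_mul]; norm_num

theorem tm_cases (n : ℕ) : tm n = 1 ∨ tm n = -1 := by
  unfold tm
  exact neg_one_pow_eq_or ℤ _

theorem tm_shift (k : ℕ) : ∀ n, n < 2 ^ k → tm (n + 2 ^ k) = - tm n := by
  induction k with
  | zero =>
    intro n hn
    have : n = 0 := by simpa using hn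
    subst this
    have h1 : (0 + 2 ^ 0 : ℕ) = 2 * 0 + 1 := by norm_num
    rw [h1, tm_two_mul_add_one]
  | succ k ih =>
    intro n hn
    have hk : (2:ℕ) ^ (k + 1) = 2 * 2 ^ k := by rw [pow_succ]; ring
    rcases Nat.even_or_odd' n with ⟨m, hm | hm⟩
    · have hm' : m < 2 ^ k := by omega
      have h1 : n + 2 ^ (k + 1) = 2 * (m + 2 ^ k) := by omega
      rw [h1, tm_two_mul, ih m hm', hm, tm_two_mul]
    · have hm' : m < 2 ^ k := by omega
      have h1 : n + 2 ^ (k + 1) = 2 * (m + 2 ^ k) + 1 := by omega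
      rw [h1, tm_two_mul_add_one, ih m hm', hm, tm_two_mul_add_one]

theorem cc_cases (n : ℕ) : cc n = 1 ∨ cc n = -1 := by
  unfold cc
  rcases tm_cases n with h | h <;> rcases tm_cases (n - 1) with h' | h' <;> rw [h, h'] <;> norm_num

/-- the period property of the signs -/
theorem cc_shift (k n : ℕ) (h0 : 0 < n) (hn : n < 2 ^ k) : cc (n + 2 ^ k) = cc n := by
  unfold cc
  have h1 : n + 2 ^ k - 1 = (n - 1) + 2 ^ k := by omega
  rw [h1, tm_shift k n hn, tm_shift k (n - 1) (by omega)]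
  ring

theorem tm_two_pow (k : ℕ) : tm (2 ^ k) = -1 := by
  have := tm_shift k 0 (by positivity)
  rw [zero_add, tm_zero] at this
  exact this

theorem tm_two_pow_sub_one (k : ℕ) : tm (2 ^ k - 1) = (-1) ^ k := by
  induction k with
  | zero => simp [tm]
  | succ k ih =>
    have hk : (2:ℕ) ^ (k + 1) = 2 * 2 ^ k := by rw [pow_succ]; ring
    have hp : 0 < (2:ℕ) ^ k := by positivity
    have h1 : 2 ^ (k + 1) - 1 = 2 * (2 ^ k - 1) + 1 := by omega
    rw [h1, tm_two_mul_add_one, ih, pow_succ]; ring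

theorem cc_two_pow (k : ℕ) : cc (2 ^ k) = (-1) ^ (k + 1) := by
  unfold cc
  rw [tm_two_pow, tm_two_pow_sub_one, pow_succ]; ring

/-- the sequence `h` in terms of `X, Y` -/
theorem h_formula (h : ℕ → ℤ) (h0 : h 0 = 0) (h1 : h 1 = 1)
    (hrec : ∀ n, h (n + 2) = (-1) ^ (Nat.digits 2 (n + 2)).sum * h (n + 1) + h n) (n : ℕ) :
    h (4 * n) = - X n ∧ h (4 * n + 1) = tm n * Y n ∧ h (4 * n + 2) = - Y (n + 1) ∧
      h (4 * n + 3) = - tm n * X n := by
  have hr : ∀ n, h (n + 2) = tm (n + 2) * h (n + 1) + h n := hrec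
  induction n with
  | zero =>
    have e2 := hr 0
    have e3 := hr 1
    have t2 : tm 2 = -1 := by simpa using tm_two_pow 1
    have t3 : tm 3 = 1 := by
      have := tm_two_pow_sub_one 2
      simpa using this
    norm_num at e2 e3
    rw [h0, h1, t2] at e2
    rw [h1, t3, e2] at e3
    refine ⟨?_, ?_, ?_, ?_⟩
    · simp [h0, X_zero]
    · simp [h1, Y_zero, tm_zero]
    · simp [e2, Y_succ, X_zero, Y_zero]
    · simp [e3, X_zero]
  | succ n ih =>
    obtain ⟨a0, a1, a2, a3⟩ := ih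
    have ht4 : ∀ m, tm (4 * m) = tm m := fun m => by
      rw [show 4 * m = 2 * (2 * m) by ring, tm_two_mul, tm_two_mul]
    have ht5 : ∀ m, tm (4 * m + 1) = - tm m := fun m => by
      rw [show 4 * m + 1 = 2 * (2 * m) + 1 by ring, tm_two_mul_add_one, tm_two_mul]
    have ht6 : ∀ m, tm (4 * m + 2) = - tm m := fun m => by
      rw [show 4 * m + 2 = 2 * (2 * m + 1) by ring, tm_two_mul, tm_two_mul_add_one]
    have ht7 : ∀ m, tm (4 * m + 3) = tm m := fun m => by
      rw [show 4 * m + 3 = 2 * (2 * m + 1) + 1 by ring, tm_two_mul_add_one, tm_two_mul_add_one]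
      ring
    have hc : cc (n + 1) = tm (n + 1) * tm n := by unfold cc; simp
    have s1 := tm_sq (n + 1)
    have s0 := tm_sq n
    have b0 : h (4 * (n + 1)) = - X (n + 1) := by
      have e := hr (4 * n + 2)
      rw [show 4 * n + 2 + 2 = 4 * (n + 1) by ring, show 4 * n + 2 + 1 = 4 * n + 3 by ring, ht4,
        a3, a2] at e
      rw [e, X_succ, Y_succ, hc]; ring
    have b1 : h (4 * (n + 1) + 1) = tm (n + 1) * Y (n + 1) := by
      have e := hr (4 * n + 3)
      rw [show 4 * n + 3 + 2 = 4 * (n + 1) + 1 by ring, show 4 * n + 3 + 1 = 4 * (n + 1) by ring,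
        ht5, b0, a3] at e
      rw [e, X_succ, Y_succ, hc]
      linear_combination (tm n * X n) * s1
    have b2 : h (4 * (n + 1) + 2) = - Y (n + 1 + 1) := by
      have e := hr (4 * (n + 1))
      rw [ht6, b1, b0] at e
      rw [e, Y_succ (n + 1)]
      linear_combination (- Y (n + 1)) * s1
    have b3 : h (4 * (n + 1) + 3) = - tm (n + 1) * X (n + 1) := by
      have e := hr (4 * (n + 1) + 1)
      rw [show 4 * (n + 1) + 1 + 2 = 4 * (n + 1) + 3 by ring,
        show 4 * (n + 1) + 1 + 1 = 4 * (n + 1) + 2 by ring, ht7, b2, b1] at e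
      rw [e, Y_succ (n + 1)]; ring
    exact ⟨b0, b1, b2, b3⟩

end Pool.Agent.Lib.MP_b24f15_nt.Gap
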