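import Mathlib
import Pool.Agent.Lib.MP_b24f15_nt.Gap.Defs

/-!
# Transfer matrices of the sequence `(X n, Y n)`
-/

set_option autoImplicit false

namespace Pool.Agent.Lib.MP_b24f15_nt.Gap

open Matrix

theorem XY_basic (n : ℕ) : 0 ≤ X n ∧ 0 < Y n ∧ X n ≤ 2 * Y n := by
  induction n with
  | zero => refine ⟨?_, ?_, ?_⟩ <;> simp [X_zero, Y_zero]
  | succ n ih =>
    obtain ⟨h1, h2, h3⟩ := ih
    rw [X_succ, Y_succ]
    rcases cc_cases (n + 1) with h | h <;> rw [h]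
    · refine ⟨?_, ?_, ?_⟩ <;> nlinarith
    · refine ⟨?_, ?_, ?_⟩ <;> nlinarith

theorem X_nonneg (n : ℕ) : 0 ≤ X n := (XY_basic n).1
theorem Y_pos (n : ℕ) : 0 < Y n := (XY_basic n).2.1
theorem X_le (n : ℕ) : X n ≤ 2 * Y n := (XY_basic n).2.2

theorem Y_le (n : ℕ) (hn : 0 < n) : Y n ≤ 3 * X n := by
  obtain ⟨m, rfl⟩ : ∃ m, n = m + 1 := ⟨n - 1, by omega⟩
  have h1 := X_nonneg m
  have h2 := Y_pos m
  have h3 := X_le m
  rw [X_succ, Y_succ]
  rcases cc_cases (m + 1) with h | h <;> rw [h] <;> nlinarith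

theorem X_pos (n : ℕ) (hn : 0 < n) : 0 < X n := by
  have h1 := Y_le n hn
  have h2 := Y_pos n
  omega

theorem Y_mono : Monotone Y := by
  refine monotone_nat_of_le_succ fun n => ?_
  rw [Y_succ]
  have := X_nonneg n
  omega

theorem Y_succ_le (n : ℕ) : Y (n + 1) ≤ 3 * Y n := by
  rw [Y_succ]
  have := X_le n
  omega

/-- one step -/
def Nm (c : ℤ) : Matrix (Fin 2) (Fin 2) ℤ := !![1 + c, 1; 1, 1]

/-- the transfer matrix over the steps `n+1, ..., n+l` -/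
def P (n : ℕ) : ℕ → Matrix (Fin 2) (Fin 2) ℤ
  | 0 => 1
  | (l + 1) => Nm (cc (n + l + 1)) * P n l

theorem P_zero (n : ℕ) : P n 0 = 1 := rfl
theorem P_succ (n l : ℕ) : P n (l + 1) = Nm (cc (n + l + 1)) * P n l := rfl

theorem P_add (n l l' : ℕ) : P n (l + l') = P (n + l) l' * P n l := by
  induction l' with
  | zero => simp [P_zero]
  | succ l' ih =>
    rw [← add_assoc, P_succ, ih, P_succ, Matrix.mul_assoc]
    congr 3
    ring_nf

theorem P_congr (n n' l : ℕ) (h : ∀ i, 0 < i → i ≤ l → cc (n + i) = cc (n' + i)) :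
    P n l = P n' l := by
  induction l with
  | zero => rfl
  | succ l ih =>
    rw [P_succ, P_succ, ih (fun i h0 hi => h i h0 (by omega))]
    have := h (l + 1) (by omega) le_rfl
    rw [← add_assoc, ← add_assoc] at this
    rw [this]

theorem Nm_nonneg (c : ℤ) (hc : c = 1 ∨ c = -1) (i j : Fin 2) : 0 ≤ Nm c i j := by
  rcases hc with h | h <;> subst h <;> fin_cases i <;> fin_cases j <;> simp [Nm]

theorem P_nonneg (n l : ℕ) (i j : Fin 2) : 0 ≤ P n l i j := by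
  induction l generalizing i j with
  | zero =>
    rw [P_zero]
    fin_cases i <;> fin_cases j <;> simp
  | succ l ih =>
    rw [P_succ, Matrix.mul_apply]
    refine Finset.sum_nonneg fun k _ => mul_nonneg (Nm_nonneg _ (cc_cases _) _ _) (ih _ _)

theorem Nm_det (c : ℤ) : (Nm c).det = c := by
  simp [Nm, Matrix.det_fin_two]

theorem P_det (n l : ℕ) : (P n l).det = 1 ∨ (P n l).det = -1 := by
  induction l with
  | zero => left; simp [P_zero]
  | succ l ih =>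
    rw [P_succ, Matrix.det_mul, Nm_det]
    rcases cc_cases (n + l + 1) with h | h <;> rcases ih with h' | h' <;> rw [h, h'] <;> norm_num

theorem P_det' (n l : ℕ) : P n l 0 0 * P n l 1 1 - P n l 0 1 * P n l 1 0 = 1 ∨
    P n l 0 0 * P n l 1 1 - P n l 0 1 * P n l 1 0 = -1 := by
  have := P_det n l
  rwa [Matrix.det_fin_two] at this

theorem P_vec (n l : ℕ) : X (n + l) = P n l 0 0 * X n + P n l 0 1 * Y n ∧
    Y (n + l) = P n l 1 0 * X n + P n l 1 1 * Y n := by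
  induction l with
  | zero => simp [P_zero]
  | succ l ih =>
    obtain ⟨h1, h2⟩ := ih
    have e : ∀ i j, P n (l + 1) i j = Nm (cc (n + l + 1)) i 0 * P n l 0 j
        + Nm (cc (n + l + 1)) i 1 * P n l 1 j := by
      intro i j
      rw [P_succ, Matrix.mul_apply, Fin.sum_univ_two]
    have hx : X (n + (l + 1)) = (1 + cc (n + l + 1)) * X (n + l) + Y (n + l) := X_succ (n + l)
    have hy : Y (n + (l + 1)) = X (n + l) + Y (n + l) := Y_succ (n + l)
    have n00 : Nm (cc (n + l + 1)) 0 0 = 1 + cc (n + l + 1) := by simp [Nm]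
    have n01 : Nm (cc (n + l + 1)) 0 1 = 1 := by simp [Nm]
    have n10 : Nm (cc (n + l + 1)) 1 0 = 1 := by simp [Nm]
    have n11 : Nm (cc (n + l + 1)) 1 1 = 1 := by simp [Nm]
    rw [hx, hy, e, e, e, e, n00, n01, n10, n11, h1, h2]
    constructor <;> ring

/-- the word of length `2^k - 1` -/
def G (k : ℕ) : Matrix (Fin 2) (Fin 2) ℤ := P 0 (2 ^ k - 1)

theorem G_eq (k : ℕ) : P (2 ^ k) (2 ^ k - 1) = G k := by
  refine P_congr _ _ _ fun i h0 hi => ?_
  have hp : 0 < (2:ℕ) ^ k := by positivity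
  rw [add_comm, cc_shift k i h0 (by omega), zero_add]

theorem G_succ (k : ℕ) : G (k + 1) = G k * Nm (cc (2 ^ k)) * G k := by
  have hp : 0 < (2:ℕ) ^ k := by positivity
  have h1 : (2:ℕ) ^ (k + 1) - 1 = (2 ^ k - 1) + 1 + (2 ^ k - 1) := by
    rw [pow_succ]; omega
  have h2 : (2:ℕ) ^ k - 1 + 1 = 2 ^ k := by omega
  unfold G
  rw [h1, P_add, P_succ]
  rw [zero_add, zero_add, h2, G_eq]
  unfold G
  rw [Matrix.mul_assoc]

/-- the period matrix `M k` -/
def M (k : ℕ) : Matrix (Fin 2) (Fin 2) ℤ := G k * Nm (cc (2 ^ k))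

theorem M_eq (k : ℕ) : P (2 ^ k - 1) (2 ^ k) = M k := by
  have hp : 0 < (2:ℕ) ^ k := by positivity
  have h1 : (2:ℕ) ^ k = 1 + (2 ^ k - 1) := by omega
  have h2 : (2:ℕ) ^ k - 1 + 1 = 2 ^ k := by omega
  have e : P (2 ^ k - 1) (1 + (2 ^ k - 1)) = M k := by
    rw [P_add, h2, G_eq, show (1:ℕ) = 0 + 1 from rfl, P_succ, P_zero, add_zero, h2,
      Matrix.mul_one]
    rfl
  calc P (2 ^ k - 1) (2 ^ k) = P (2 ^ k - 1) (1 + (2 ^ k - 1)) := by rw [← h1]
    _ = M k := e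

theorem M_det (k : ℕ) : (M k).det = -1 := by
  induction k with
  | zero =>
    have : cc (2 ^ 0) = -1 := by rw [cc_two_pow]; norm_num
    unfold M G
    rw [this, Matrix.det_mul, Nm_det]
    simp [P_zero]
  | succ k ih =>
    have h1 : cc (2 ^ (k + 1)) = - cc (2 ^ k) := by rw [cc_two_pow, cc_two_pow]; ring
    have h2 : (M (k + 1)).det = (M k).det * (G k).det * cc (2 ^ (k + 1)) := by
      unfold M
      rw [Matrix.det_mul, G_succ, Matrix.det_mul, Nm_det]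
    have h3 : (M k).det = (G k).det * cc (2 ^ k) := by
      unfold M
      rw [Matrix.det_mul, Nm_det]
    rw [h2, h1, ih]
    rw [ih] at h3
    linarith

theorem mul_two (A B : Matrix (Fin 2) (Fin 2) ℤ) (i j : Fin 2) :
    (A * B) i j = A i 0 * B 0 j + A i 1 * B 1 j := by
  rw [Matrix.mul_apply, Fin.sum_univ_two]

/-- reduction modulo 3 -/
def Gz (k : ℕ) : Matrix (Fin 2) (Fin 2) (ZMod 3) := (Int.castRingHom (ZMod 3)).mapMatrix (G k)

theorem Gz_succ (k : ℕ) :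
    Gz (k + 1) = Gz k * (Int.castRingHom (ZMod 3)).mapMatrix (Nm ((-1) ^ (k + 1))) * Gz k := by
  unfold Gz
  rw [G_succ, cc_two_pow, map_mul, map_mul]

theorem Nz_even (k : ℕ) (h : Even k) :
    (Int.castRingHom (ZMod 3)).mapMatrix (Nm ((-1) ^ (k + 1))) = !![0, 1; 1, 1] := by
  have : ((-1 : ℤ)) ^ (k + 1) = -1 := Odd.neg_one_pow (Even.add_one h)
  rw [this]
  ext i j
  fin_cases i <;> fin_cases j <;> simp [Nm]

theorem Nz_odd (k : ℕ) (h : Odd k) :
    (Int.castRingHom (ZMod 3)).mapMatrix (Nm ((-1) ^ (k + 1))) = !![2, 1; 1, 1] := by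
  have : ((-1 : ℤ)) ^ (k + 1) = 1 := Even.neg_one_pow (Odd.add_one h)
  rw [this]
  ext i j
  fin_cases i <;> fin_cases j <;> simp [Nm]

theorem Gz_two : Gz 2 = !![1, 2; 2, 2] := by
  have h0 : Gz 0 = 1 := by
    unfold Gz
    have : G 0 = 1 := by simp [G, P_zero]
    rw [this, map_one]
  have h1 : Gz 1 = !![0, 1; 1, 1] := by
    have e := Gz_succ 0
    rw [h0, Nz_even 0 (by decide)] at e
    rw [zero_add] at e
    rw [e]
    decide
  have e := Gz_succ 1
  rw [h1, Nz_odd 1 (by decide)] at e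
  have e2 : Gz 2 = Gz (1 + 1) := rfl
  rw [e2, e]
  decide

theorem Gz_mod (k : ℕ) (hk : 2 ≤ k) :
    (Even k → Gz k = !![1, 2; 2, 2]) ∧ (Odd k → Gz k = !![2, 1; 1, 0]) := by
  induction k, hk using Nat.le_induction with
  | base => exact ⟨fun _ => Gz_two, fun h => absurd h (by decide)⟩
  | succ k hk ih =>
    refine ⟨fun h => ?_, fun h => ?_⟩
    · have ho : Odd k := by
        rcases Nat.even_or_odd k with h' | h'
        · exact absurd h (Nat.not_even_iff_odd.mpr (h'.add_one))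
        · exact h'
      rw [Gz_succ, ih.2 ho, Nz_odd k ho]
      decide
    · have he : Even k := by
        rcases Nat.even_or_odd k with h' | h'
        · exact h'
        · exact absurd h (Nat.not_odd_iff_even.mpr (h'.add_one))
      rw [Gz_succ, ih.1 he, Nz_even k he]
      decide

/-- the trace of `M k` is divisible by 3 -/
theorem M_trace (k : ℕ) (hk : 2 ≤ k) : (3 : ℤ) ∣ M k 0 0 + M k 1 1 := by
  have hM : (Int.castRingHom (ZMod 3)).mapMatrix (M k) =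
      Gz k * (Int.castRingHom (ZMod 3)).mapMatrix (Nm ((-1) ^ (k + 1))) := by
    unfold M Gz
    rw [cc_two_pow, map_mul]
  have h2 : (Int.castRingHom (ZMod 3)).mapMatrix (M k) = !![2, 0; 2, 1] := by
    rw [hM]
    rcases Nat.even_or_odd k with h | h
    · rw [(Gz_mod k hk).1 h, Nz_even k h]; decide
    · rw [(Gz_mod k hk).2 h, Nz_odd k h]; decide
  have h00 : ((M k 0 0 : ℤ) : ZMod 3) = 2 := by
    have := congrFun (congrFun h2 0) 0
    simpa using this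
  have h11 : ((M k 1 1 : ℤ) : ZMod 3) = 1 := by
    have := congrFun (congrFun h2 1) 1
    simpa using this
  have : ((M k 0 0 + M k 1 1 : ℤ) : ZMod 3) = 0 := by
    push_cast
    rw [h00, h11]; decide
  exact (ZMod.intCast_zmod_eq_zero_iff_dvd _ 3).mp this

theorem G_col (k : ℕ) : G k 0 1 = X (2 ^ k - 1) ∧ G k 1 1 = Y (2 ^ k - 1) := by
  have := P_vec 0 (2 ^ k - 1)
  rw [zero_add, X_zero, Y_zero] at this
  unfold G
  constructor
  · linarith [this.1]
  · linarith [this.2]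

theorem G_nonneg (k : ℕ) (i j : Fin 2) : 0 ≤ G k i j := P_nonneg _ _ _ _

theorem G_le (k : ℕ) (hk : 1 ≤ k) (i : Fin 2) : G k i 0 ≤ G k i 1 := by
  have hp : 2 ≤ (2:ℕ) ^ k := by
    calc 2 = 2 ^ 1 := by norm_num
      _ ≤ 2 ^ k := Nat.pow_le_pow_right (by norm_num) hk
  have h1 : (2:ℕ) ^ k - 1 = 1 + (2 ^ k - 2) := by omega
  have hc : cc (0 + 0 + 1) = -1 := by
    have := cc_two_pow 0
    simpa using this
  have e : G k = P 1 (2 ^ k - 2) * Nm (-1) := by
    unfold G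
    rw [h1, P_add]
    rw [show (1:ℕ) = 0 + 1 from rfl, P_succ, P_zero, hc, Matrix.mul_one]
  rw [e, mul_two, mul_two]
  have h2 := P_nonneg 1 (2 ^ k - 2) i 0
  have h3 := P_nonneg 1 (2 ^ k - 2) i 1
  simp [Nm]
  linarith

/-- action of `G k` at `2^k` -/
theorem G_act (k : ℕ) : X (2 ^ (k + 1) - 1) = G k 0 0 * X (2 ^ k) + G k 0 1 * Y (2 ^ k) ∧
    Y (2 ^ (k + 1) - 1) = G k 1 0 * X (2 ^ k) + G k 1 1 * Y (2 ^ k) := by
  have hp : 0 < (2:ℕ) ^ k := by positivity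
  have h1 : (2:ℕ) ^ (k + 1) - 1 = 2 ^ k + (2 ^ k - 1) := by rw [pow_succ]; omega
  have := P_vec (2 ^ k) (2 ^ k - 1)
  rw [G_eq, ← h1] at this
  exact this

/-- action of `M k` at `2^k - 1` -/
theorem M_act (k : ℕ) :
    X (2 ^ (k + 1) - 1) = M k 0 0 * X (2 ^ k - 1) + M k 0 1 * Y (2 ^ k - 1) ∧
    Y (2 ^ (k + 1) - 1) = M k 1 0 * X (2 ^ k - 1) + M k 1 1 * Y (2 ^ k - 1) := by
  have hp : 0 < (2:ℕ) ^ k := by positivity
  have h1 : (2:ℕ) ^ (k + 1) - 1 = (2 ^ k - 1) + 2 ^ k := by rw [pow_succ]; omega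
  have := P_vec (2 ^ k - 1) (2 ^ k)
  rw [M_eq, ← h1] at this
  exact this

theorem M_nonneg (k : ℕ) (i j : Fin 2) : 0 ≤ M k i j := by
  rw [← M_eq]; exact P_nonneg _ _ _ _

theorem M_det' (k : ℕ) : M k 0 0 * M k 1 1 - M k 0 1 * M k 1 0 = -1 := by
  have := M_det k
  rwa [Matrix.det_fin_two] at this

/-- the wedge of `W (2^(k+1)-1)` and `W (2^k-1)` is `± X (2^k)` -/
theorem wedge (k : ℕ) :
    X (2 ^ (k + 1) - 1) * Y (2 ^ k - 1) - Y (2 ^ (k + 1) - 1) * X (2 ^ k - 1) = X (2 ^ k) ∨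
    X (2 ^ (k + 1) - 1) * Y (2 ^ k - 1) - Y (2 ^ (k + 1) - 1) * X (2 ^ k - 1) = - X (2 ^ k) := by
  obtain ⟨h1, h2⟩ := G_act k
  obtain ⟨h3, h4⟩ := G_col k
  have h5 := P_det' 0 (2 ^ k - 1)
  have h6 : G k 0 0 * G k 1 1 - G k 0 1 * G k 1 0 = 1 ∨
    G k 0 0 * G k 1 1 - G k 0 1 * G k 1 0 = -1 := h5
  rw [h1, h2, ← h3, ← h4]
  rcases h6 with h | h
  · left; linear_combination X (2 ^ k) * h
  · right; linear_combination X (2 ^ k) * h

end Pool.Agent.Lib.MP_b24f15_nt.Gap
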