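import Mathlib
import Pool.Agent.Lib.MP_b24f15_nt.Gap.Trans

/-!
# The first 460 levels
-/

set_option autoImplicit false

namespace Pool.Agent.Lib.MP_b24f15_nt.Gap

/-- parity of the number of binary ones, with fuel -/
def par : ℕ → ℕ → Bool
  | 0, _ => false
  | f + 1, n => xor (decide (n % 2 = 1)) (par f (n / 2))

theorem par_tm (f : ℕ) : ∀ n, n < 2 ^ f → tm n = if par f n then -1 else 1 := by
  induction f with
  | zero =>
    intro n hn
    have : n = 0 := by simpa using hn
    subst this
    simp [par, tm_zero]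
  | succ f ih =>
    intro n hn
    have h2 : n / 2 < 2 ^ f := by
      rw [pow_succ] at hn; omega
    rw [tm_rec n, ih _ h2]
    rcases Nat.mod_two_eq_zero_or_one n with h | h
    · simp [par, h]
    · simp only [par, h, pow_one, decide_true, Bool.true_xor]
      cases par f (n / 2) <;> simp

/-- `v` is not among the Fibonacci numbers from `a = F m`, `b = F (m+1)` on -/
def notin : ℕ → ℕ → ℕ → ℕ → Bool
  | 0, _, _, _ => false
  | f + 1, a, b, v => (decide (v < a)) || ((decide (v ≠ a)) && notin f b (a + b) v)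

theorem notin_correct (f : ℕ) : ∀ (m v : ℕ), notin f (Nat.fib m) (Nat.fib (m + 1)) v = true →
    ∀ m', m ≤ m' → Nat.fib m' ≠ v := by
  induction f with
  | zero => intro m v h; simp [notin] at h
  | succ f ih =>
    intro m v h m' hm
    unfold notin at h
    rw [Bool.or_eq_true, Bool.and_eq_true, decide_eq_true_eq, decide_eq_true_eq] at h
    rcases h with h | ⟨h, h'⟩
    · have := Nat.fib_mono hm
      omega
    · rcases Nat.lt_or_ge m m' with hlt | hge
      · have e : Nat.fib m + Nat.fib (m + 1) = Nat.fib (m + 1 + 1) := (Nat.fib_add_two).symm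
        rw [e] at h'
        exact ih (m + 1) v h' m' hlt
      · have : m' = m := by omega
        rw [this]; exact h.symm

/-- advance the pair of Fibonacci numbers -/
def adv : ℕ → ℕ → ℕ → ℕ → ℕ × ℕ
  | 0, a, b, _ => (a, b)
  | f + 1, a, b, y => if 4 * b < y then adv f b (a + b) y else (a, b)

theorem adv_correct (f : ℕ) : ∀ (m y : ℕ), ∃ m', adv f (Nat.fib m) (Nat.fib (m + 1)) y =
    (Nat.fib m', Nat.fib (m' + 1)) := by
  induction f with
  | zero => intro m y; exact ⟨m, rfl⟩
  | succ f ih =>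
    intro m y
    unfold adv
    split_ifs
    · rw [← Nat.fib_add_two]
      exact ih (m + 1) y
    · exact ⟨m, rfl⟩

/-- one value is fine -/
def okB (a b v : ℕ) : Bool := decide (v ≤ 5) || (decide (a < v) && notin 14 a b v)

theorem okB_correct (m v : ℕ) (h : okB (Nat.fib m) (Nat.fib (m + 1)) v = true) :
    v ≤ 5 ∨ ∀ m', Nat.fib m' ≠ v := by
  unfold okB at h
  rw [Bool.or_eq_true, Bool.and_eq_true, decide_eq_true_eq, decide_eq_true_eq] at h
  rcases h with h | ⟨h, h'⟩
  · left; exact h
  · right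
    intro m'
    rcases Nat.lt_or_ge m m' with hlt | hge
    · exact notin_correct 14 m v h' m' hlt.le
    · have := Nat.fib_mono hge
      omega

/-- the loop: remaining steps, level, `X`, `Y`, sign, Fibonacci pair, final bound -/
def run (B : ℕ) : ℕ → ℕ → ℕ → ℕ → Bool → ℕ → ℕ → Bool
  | 0, _, _, y, _, _, _ => decide (B ≤ y)
  | s + 1, n, x, y, t, a, b =>
    let t' := par 10 (n + 1)
    let x' := (if t = t' then 2 * x else 0) + y
    let y' := x + y
    let ab := adv 6 a b y'
    okB ab.1 ab.2 x' && (okB ab.1 ab.2 y' && run B s (n + 1) x' y' t' ab.1 ab.2)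

/-- what we want of one level -/
def OK (v : ℤ) : Prop := v ≤ 5 ∨ ∀ m : ℕ, (Nat.fib m : ℤ) ≠ v

theorem OK_of (v : ℕ) (h : v ≤ 5 ∨ ∀ m', Nat.fib m' ≠ v) : OK (v : ℤ) := by
  rcases h with h | h
  · left; exact_mod_cast h
  · right; intro m; exact_mod_cast h m

theorem run_correct (B : ℕ) : ∀ (s n x y : ℕ) (t : Bool) (m : ℕ),
    run B s n x y t (Nat.fib m) (Nat.fib (m + 1)) = true → (x : ℤ) = X n → (y : ℤ) = Y n →
    t = par 10 n → n + s < 1024 →
    (∀ j, n < j → j ≤ n + s → OK (X j) ∧ OK (Y j)) ∧ (B : ℤ) ≤ Y (n + s) := by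
  intro s
  induction s with
  | zero =>
    intro n x y t m h hx hy ht hn
    refine ⟨fun j h1 h2 => by omega, ?_⟩
    unfold run at h
    rw [decide_eq_true_eq] at h
    rw [add_zero, ← hy]
    exact_mod_cast h
  | succ s ih =>
    intro n x y t m h hx hy ht hn
    unfold run at h
    obtain ⟨m', hm'⟩ := adv_correct 6 m (x + y)
    simp only [hm', Bool.and_eq_true] at h
    obtain ⟨h1, h2, h3⟩ := h
    have hcc : cc (n + 1) = if t = par 10 (n + 1) then 1 else -1 := by
      unfold cc
      rw [show n + 1 - 1 = n by omega, par_tm 10 n (by omega), par_tm 10 (n + 1) (by omega), ← ht]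
      cases t <;> cases par 10 (n + 1) <;> simp
    have hx' : (((if t = par 10 (n + 1) then 2 * x else 0) + y : ℕ) : ℤ) = X (n + 1) := by
      rw [X_succ, hcc, ← hx, ← hy]
      split_ifs <;> push_cast <;> ring
    have hy' : ((x + y : ℕ) : ℤ) = Y (n + 1) := by
      rw [Y_succ, ← hx, ← hy]; push_cast; ring
    obtain ⟨a1, a2⟩ := ih (n + 1) _ _ _ m' h3 hx' hy' rfl (by omega)
    refine ⟨fun j hj1 hj2 => ?_, ?_⟩
    · rcases Nat.lt_or_ge (n + 1) j with hlt | hge
      · exact a1 j hlt (by omega)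
      · have : j = n + 1 := by omega
        rw [this, ← hx', ← hy']
        exact ⟨OK_of _ (okB_correct m' _ h1), OK_of _ (okB_correct m' _ h2)⟩
    · rw [show n + (s + 1) = n + 1 + s by ring]; exact a2

theorem run_460 : run (10 ^ 112) 460 0 0 1 false 1 1 = true := by decide +kernel

theorem check_460 : (∀ j, 0 < j → j ≤ 460 → OK (X j) ∧ OK (Y j)) ∧ (10 : ℤ) ^ 112 ≤ Y 460 := by
  have h := run_correct (10 ^ 112) 460 0 0 1 false 1 (by simpa using run_460)
    (by rw [X_zero]; rfl) (by rw [Y_zero]; rfl) (by decide) (by norm_num)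
  refine ⟨fun j h1 h2 => h.1 j h1 (by omega), ?_⟩
  have := h.2
  push_cast at this
  simpa using this

end Pool.Agent.Lib.MP_b24f15_nt.Gap
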