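import Mathlib

/-!
# The algebraic core of the gap principle

Two binary quadratic forms with integer coefficients that are both small at the same vector have a
vanishing resultant; here the first form has a root in `Q(√5)` and the second one has not.
-/

set_option autoImplicit false

namespace Pool.Agent.Lib.MP_b24f15_nt.Gap

/-- resultant of `A1 X^2 + B1 X Y + C1 Y^2` and `A2 X^2 + B2 X Y + C2 Y^2` -/
def Res (A1 B1 C1 A2 B2 C2 : ℤ) : ℤ :=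
  (A1 * C2 - A2 * C1) ^ 2 - (A1 * B2 - A2 * B1) * (B1 * C2 - B2 * C1)

theorem res_disc (A1 B1 C1 A2 B2 C2 : ℤ) :
    4 * Res A1 B1 C1 A2 B2 C2 = (B1 * B2 - 2 * A1 * C2 - 2 * A2 * C1) ^ 2
      - (B1 ^ 2 - 4 * A1 * C1) * (B2 ^ 2 - 4 * A2 * C2) := by
  unfold Res; ring

theorem res_id (A1 B1 C1 A2 B2 C2 x y : ℤ) :
    x ^ 4 * Res A1 B1 C1 A2 B2 C2 =
      ((A1 * x ^ 2 + B1 * x * y + C1 * y ^ 2) * C2 - (A2 * x ^ 2 + B2 * x * y + C2 * y ^ 2) * C1) ^ 2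
      + ((B1 * x + 2 * C1 * y) * C2 - (B2 * x + 2 * C2 * y) * C1) *
        ((B1 * x + 2 * C1 * y) * (A2 * x ^ 2 + B2 * x * y + C2 * y ^ 2)
          - (B2 * x + 2 * C2 * y) * (A1 * x ^ 2 + B1 * x * y + C1 * y ^ 2)) := by
  unfold Res; ring

/-- infinite descent modulo 3 -/
theorem no_sq (τ : ℤ) : ∀ (N : ℕ) (z w : ℤ), w.natAbs ≤ N → w ≠ 0 →
    z ^ 2 ≠ 5 * w ^ 2 * (9 * τ ^ 2 + 4) := by
  intro N
  induction N with
  | zero =>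
    intro z w h hw
    have : w = 0 := by omega
    exact absurd this hw
  | succ N ih =>
    intro z w h hw heq
    have h3 : (3 : ℤ) ∣ z ^ 2 + w ^ 2 := by
      refine ⟨w ^ 2 * (15 * τ ^ 2 + 7), ?_⟩
      rw [heq]; ring
    have hz : (3 : ℤ) ∣ z ∧ (3 : ℤ) ∣ w := by
      have e : (((z ^ 2 + w ^ 2 : ℤ)) : ZMod 3) = 0 := (ZMod.intCast_zmod_eq_zero_iff_dvd _ 3).mpr h3
      push_cast at e
      have key : ∀ a b : ZMod 3, a ^ 2 + b ^ 2 = 0 → a = 0 ∧ b = 0 := by decide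
      obtain ⟨ha, hb⟩ := key _ _ e
      exact ⟨(ZMod.intCast_zmod_eq_zero_iff_dvd _ 3).mp ha,
        (ZMod.intCast_zmod_eq_zero_iff_dvd _ 3).mp hb⟩
    obtain ⟨⟨z', hz'⟩, ⟨w', hw'⟩⟩ := hz
    have hw0 : w' ≠ 0 := by
      rintro rfl
      exact hw (by rw [hw']; ring)
    refine ih z' w' (by omega) hw0 ?_
    rw [hz', hw'] at heq
    nlinarith [heq]

theorem no_sq' (τ z w : ℤ) (hw : w ≠ 0) : z ^ 2 ≠ 5 * w ^ 2 * (9 * τ ^ 2 + 4) :=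
  no_sq τ _ z w le_rfl hw


/-- real bounds for `C1` and `P1` -/
theorem real_C1 (C t f D X lp r s ρ : ℝ) (hs : |s| = 1) (hρ : 1 ≤ ρ) (ht0 : 0 ≤ t) (ht1 : t ≤ 1)
    (htX : t * X ≤ 2) (hX : 0 ≤ X) (hf0 : 0 ≤ f) (hf : f ≤ ρ) (hD : |D| ≤ 3 * ρ)
    (hlp0 : 0 ≤ lp) (hlp : lp ≤ 3) (hr0 : 0 ≤ r) (hr : r ≤ 2)
    (hC : C = s * t ^ 2 * f ^ 2 + t * D * X * f * lp + D ^ 2 * r ^ 2) : |C| ≤ 55 * ρ ^ 2 := by
  have hρ0 : 0 ≤ ρ := by linarith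
  have h1 : |s * t ^ 2 * f ^ 2| ≤ ρ ^ 2 := by
    rw [abs_mul, abs_mul, hs, one_mul, abs_of_nonneg (by positivity : (0:ℝ) ≤ t ^ 2),
      abs_of_nonneg (by positivity : (0:ℝ) ≤ f ^ 2)]
    have a : t ^ 2 ≤ 1 := by nlinarith
    have b : f ^ 2 ≤ ρ ^ 2 := by nlinarith
    calc t ^ 2 * f ^ 2 ≤ 1 * ρ ^ 2 := mul_le_mul a b (by positivity) (by norm_num)
      _ = ρ ^ 2 := one_mul _
  have h2 : |t * D * X * f * lp| ≤ 18 * ρ ^ 2 := by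
    have e : t * D * X * f * lp = (t * X) * f * lp * D := by ring
    rw [e, abs_mul, abs_of_nonneg (by positivity : (0:ℝ) ≤ t * X * f * lp)]
    have a : t * X * f ≤ 2 * ρ := mul_le_mul htX hf hf0 (by norm_num)
    have b : t * X * f * lp ≤ 2 * ρ * 3 := mul_le_mul a hlp hlp0 (by positivity)
    calc t * X * f * lp * |D| ≤ (2 * ρ * 3) * (3 * ρ) :=
          mul_le_mul b hD (abs_nonneg _) (by positivity)
      _ = 18 * ρ ^ 2 := by ring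
  have h3 : |D ^ 2 * r ^ 2| ≤ 36 * ρ ^ 2 := by
    rw [abs_of_nonneg (by positivity)]
    have a : D ^ 2 ≤ (3 * ρ) ^ 2 := by
      rw [← sq_abs D]
      exact pow_le_pow_left₀ (abs_nonneg _) hD 2
    have b : r ^ 2 ≤ 2 ^ 2 := pow_le_pow_left₀ hr0 hr 2
    calc D ^ 2 * r ^ 2 ≤ (3 * ρ) ^ 2 * 2 ^ 2 := mul_le_mul a b (by positivity) (by positivity)
      _ = 36 * ρ ^ 2 := by ring
  rw [hC]
  calc |s * t ^ 2 * f ^ 2 + t * D * X * f * lp + D ^ 2 * r ^ 2|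
      ≤ |s * t ^ 2 * f ^ 2| + |t * D * X * f * lp| + |D ^ 2 * r ^ 2| := abs_add_three _ _ _
    _ ≤ ρ ^ 2 + 18 * ρ ^ 2 + 36 * ρ ^ 2 := by linarith
    _ = 55 * ρ ^ 2 := by ring

theorem real_P1 (P t f D X lp s ρ : ℝ) (hs : |s| = 1) (hρ : 1 ≤ ρ) (ht0 : 0 ≤ t) (ht1 : t ≤ 1)
    (hX : 1 ≤ X) (hf0 : 0 ≤ f) (hf : f ≤ ρ) (hD : |D| ≤ 3 * ρ)
    (hlp0 : 0 ≤ lp) (hlp : lp ≤ 3)
    (hP : P = 2 * s * t * f ^ 2 + D * X * f * lp) : |P| ≤ 11 * ρ ^ 2 * X := by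
  have hρ0 : 0 ≤ ρ := by linarith
  have h1 : |2 * s * t * f ^ 2| ≤ 2 * ρ ^ 2 := by
    have e : |2 * s * t * f ^ 2| = 2 * (t * f ^ 2) := by
      rw [abs_mul, abs_mul, abs_mul, hs, abs_of_nonneg (by positivity : (0:ℝ) ≤ t),
        abs_of_nonneg (by positivity : (0:ℝ) ≤ f ^ 2), abs_two]; ring
    rw [e]
    have b : f ^ 2 ≤ ρ ^ 2 := by nlinarith
    have : t * f ^ 2 ≤ 1 * ρ ^ 2 := mul_le_mul ht1 b (by positivity) (by norm_num)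
    linarith
  have h2 : |D * X * f * lp| ≤ 9 * ρ ^ 2 * X := by
    have e : D * X * f * lp = X * f * lp * D := by ring
    rw [e, abs_mul, abs_of_nonneg (by positivity : (0:ℝ) ≤ X * f * lp)]
    have a : X * f ≤ X * ρ := mul_le_mul_of_nonneg_left hf (by linarith)
    have b : X * f * lp ≤ X * ρ * 3 := mul_le_mul a hlp hlp0 (by positivity)
    calc X * f * lp * |D| ≤ (X * ρ * 3) * (3 * ρ) :=
          mul_le_mul b hD (abs_nonneg _) (by positivity)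
      _ = 9 * ρ ^ 2 * X := by ring
  rw [hP]
  have h3 : 2 * ρ ^ 2 ≤ 2 * ρ ^ 2 * X := by nlinarith [sq_nonneg ρ]
  calc |2 * s * t * f ^ 2 + D * X * f * lp|
      ≤ |2 * s * t * f ^ 2| + |D * X * f * lp| := abs_add_le _ _
    _ ≤ 2 * ρ ^ 2 + 9 * ρ ^ 2 * X := by linarith
    _ ≤ 11 * ρ ^ 2 * X := by linarith

/-- the final real inequality -/
theorem real_final (X U ρ q1 q2 C1 C2 P1 P2 R Y' : ℝ) (hX : 100 ≤ X) (hY' : 0 < Y')
    (hU : U = X / Y') (hρ : 1 ≤ ρ) (hq1 : |q1| ≤ ρ ^ 2) (hq2 : |q2| ≤ 6 * U)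
    (hC1 : |C1| ≤ 55 * ρ ^ 2) (hC2 : |C2| ≤ U) (hP1 : |P1| ≤ 11 * ρ ^ 2 * X)
    (hP2 : |P2| ≤ 9 * X * U) (hR : 1 ≤ |R|)
    (hid : X ^ 4 * R = (q1 * C2 - q2 * C1) ^ 2 + (P1 * C2 - P2 * C1) * (P1 * q2 - P2 * q1)) :
    Y' ≤ 195 * ρ ^ 2 := by
  have hρ0 : 0 ≤ ρ := by linarith
  have hU0 : 0 < U := by rw [hU]; positivity
  have hX0 : 0 < X := by linarith
  have e1 : |q1 * C2 - q2 * C1| ≤ 331 * ρ ^ 2 * U := by
    calc |q1 * C2 - q2 * C1| ≤ |q1 * C2| + |q2 * C1| := abs_sub _ _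
      _ = |q1| * |C2| + |q2| * |C1| := by rw [abs_mul, abs_mul]
      _ ≤ ρ ^ 2 * U + 6 * U * (55 * ρ ^ 2) := by
          have a := mul_le_mul hq1 hC2 (abs_nonneg _) (by positivity)
          have b := mul_le_mul hq2 hC1 (abs_nonneg _) (by positivity)
          linarith
      _ = 331 * ρ ^ 2 * U := by ring
  have e2 : |P1 * C2 - P2 * C1| ≤ 506 * ρ ^ 2 * X * U := by
    calc |P1 * C2 - P2 * C1| ≤ |P1 * C2| + |P2 * C1| := abs_sub _ _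
      _ = |P1| * |C2| + |P2| * |C1| := by rw [abs_mul, abs_mul]
      _ ≤ 11 * ρ ^ 2 * X * U + 9 * X * U * (55 * ρ ^ 2) := by
          have a := mul_le_mul hP1 hC2 (abs_nonneg _) (by positivity)
          have b := mul_le_mul hP2 hC1 (abs_nonneg _) (by positivity)
          linarith
      _ = 506 * ρ ^ 2 * X * U := by ring
  have e3 : |P1 * q2 - P2 * q1| ≤ 75 * ρ ^ 2 * X * U := by
    calc |P1 * q2 - P2 * q1| ≤ |P1 * q2| + |P2 * q1| := abs_sub _ _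
      _ = |P1| * |q2| + |P2| * |q1| := by rw [abs_mul, abs_mul]
      _ ≤ 11 * ρ ^ 2 * X * (6 * U) + 9 * X * U * ρ ^ 2 := by
          have a := mul_le_mul hP1 hq2 (abs_nonneg _) (by positivity)
          have b := mul_le_mul hP2 hq1 (abs_nonneg _) (by positivity)
          linarith
      _ = 75 * ρ ^ 2 * X * U := by ring
  have h4 : X ^ 4 ≤ (331 * ρ ^ 2 * U) ^ 2 + (506 * ρ ^ 2 * X * U) * (75 * ρ ^ 2 * X * U) := by
    calc X ^ 4 = X ^ 4 * 1 := (mul_one _).symm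
      _ ≤ X ^ 4 * |R| := mul_le_mul_of_nonneg_left hR (by positivity)
      _ = |X ^ 4 * R| := by rw [abs_mul, abs_of_nonneg (by positivity : (0:ℝ) ≤ X ^ 4)]
      _ = |(q1 * C2 - q2 * C1) ^ 2 + (P1 * C2 - P2 * C1) * (P1 * q2 - P2 * q1)| := by rw [hid]
      _ ≤ |(q1 * C2 - q2 * C1) ^ 2| + |(P1 * C2 - P2 * C1) * (P1 * q2 - P2 * q1)| := abs_add_le _ _
      _ = |q1 * C2 - q2 * C1| ^ 2 + |P1 * C2 - P2 * C1| * |P1 * q2 - P2 * q1| := by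
          rw [abs_pow, abs_mul]
      _ ≤ _ := by
          have a := pow_le_pow_left₀ (abs_nonneg _) e1 2
          have b := mul_le_mul e2 e3 (abs_nonneg _) (by positivity)
          linarith
  have h5 : X ^ 4 ≤ 37961 * (ρ ^ 2 * U) ^ 2 * X ^ 2 := by
    have : (331 * ρ ^ 2 * U) ^ 2 + (506 * ρ ^ 2 * X * U) * (75 * ρ ^ 2 * X * U)
        = (ρ ^ 2 * U) ^ 2 * (109561 + 37950 * X ^ 2) := by ring
    rw [this] at h4
    have h6 : (109561:ℝ) + 37950 * X ^ 2 ≤ 37961 * X ^ 2 := by nlinarith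
    calc X ^ 4 ≤ (ρ ^ 2 * U) ^ 2 * (109561 + 37950 * X ^ 2) := h4
      _ ≤ (ρ ^ 2 * U) ^ 2 * (37961 * X ^ 2) := mul_le_mul_of_nonneg_left h6 (by positivity)
      _ = _ := by ring
  have h7 : X * Y' = U * Y' ^ 2 := by
    rw [hU]; field_simp
  have h8 : X = U * Y' := by
    rw [hU]; field_simp
  have h9 : Y' ^ 2 ≤ 37961 * ρ ^ 4 := by
    have a : X ^ 2 * X ^ 2 ≤ (37961 * (ρ ^ 2 * U) ^ 2) * X ^ 2 := by
      calc X ^ 2 * X ^ 2 = X ^ 4 := by ring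
        _ ≤ _ := h5
    have b : X ^ 2 ≤ 37961 * (ρ ^ 2 * U) ^ 2 := le_of_mul_le_mul_right a (by positivity)
    rw [h8] at b
    have c : U ^ 2 * Y' ^ 2 ≤ U ^ 2 * (37961 * ρ ^ 4) := by nlinarith [b]
    exact le_of_mul_le_mul_left c (by positivity)
  have h10 : Y' ^ 2 ≤ (195 * ρ ^ 2) ^ 2 := by
    calc Y' ^ 2 ≤ 37961 * ρ ^ 4 := h9
      _ ≤ (195 * ρ ^ 2) ^ 2 := by nlinarith [pow_nonneg hρ0 4]
  exact le_of_sq_le_sq h10 (by positivity)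


theorem int_X2x (a1 a2 X Y x : ℤ) (hX : 0 < X) (hY : 0 < Y) (hXY : X ≤ 2 * Y) (ha1 : 0 ≤ a1)
    (ha2 : 0 ≤ a2) (hx : x = a1 * X + a2 * Y) (hx0 : 0 < x) : X ≤ 2 * x := by
  rcases lt_or_eq_of_le ha1 with h | h
  · have h1 : 1 * X ≤ a1 * X := mul_le_mul_of_nonneg_right (by omega) hX.le
    have h0 : 0 ≤ a2 * Y := mul_nonneg ha2 hY.le
    linarith
  · rcases lt_or_eq_of_le ha2 with h' | h'
    · have h1 : 1 * Y ≤ a2 * Y := mul_le_mul_of_nonneg_right (by omega) hY.le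
      have h0 : 0 ≤ a1 * X := mul_nonneg ha1 hX.le
      linarith
    · rw [← h, ← h'] at hx; simp at hx; omega

theorem int_m1 (m X X' Y' : ℤ) (hm : 0 ≤ m) (h : m * X' ≤ X) (h' : Y' ≤ 3 * X') :
    m * Y' ≤ 3 * X := by
  have := mul_le_mul_of_nonneg_left h' hm
  linarith

theorem int_Xk (X X' Y' Xk Yk g1 : ℤ) (hXk : 0 < Xk) (hX' : 0 < X') (hXk2 : Xk ≤ 2 * Yk)
    (hYX' : Y' ≤ 3 * X') (hg1 : 0 ≤ g1) (hG : X = g1 * Xk + X' * Yk) : Xk * Y' ≤ 6 * X := by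
  have a : 0 ≤ g1 * Xk := mul_nonneg hg1 hXk.le
  have b : Xk * Y' ≤ Xk * (3 * X') := mul_le_mul_of_nonneg_left hYX' hXk.le
  have c : X' * Xk ≤ X' * (2 * Yk) := mul_le_mul_of_nonneg_left hXk2 hX'.le
  linarith

/-- the core inequality -/
theorem core
    (x y X Y X' Y' Xk Yk g1 m1 m2 m3 m4 a1 a2 b1 b2 f L Lp e s : ℤ)
    (hX : 100 ≤ X) (hY : 0 < Y) (hXY : X ≤ 2 * Y) (hYX : Y ≤ 3 * X)
    (hX' : 0 < X') (hY' : 0 < Y') (hYX' : Y' ≤ 3 * X')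
    (hXk : 0 < Xk) (hXk2 : Xk ≤ 2 * Yk)
    (hm1 : 0 ≤ m1) (hm2 : 0 ≤ m2) (hm3 : 0 ≤ m3) (hm4 : 0 ≤ m4)
    (hMX : X = m1 * X' + m2 * Y') (hMY : Y = m3 * X' + m4 * Y')
    (hdet : m1 * m4 - m2 * m3 = -1) (htr : (3 : ℤ) ∣ m1 + m4)
    (hw : X * Y' - Y * X' = Xk ∨ X * Y' - Y * X' = - Xk)
    (hg1 : 0 ≤ g1) (hG : X = g1 * Xk + X' * Yk)
    (ha1 : 0 ≤ a1) (ha2 : 0 ≤ a2) (hb1 : 0 ≤ b1) (hb2 : 0 ≤ b2)
    (hx : x = a1 * X + a2 * Y) (hy : y = b1 * X + b2 * Y)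
    (hD : a1 * b2 - a2 * b1 ≠ 0) (hDx : |a1 * b2 - a2 * b1| * x ≤ 3 * y)
    (hx0 : 0 < x) (hxy : x ≤ y)
    (hf : 0 < f) (hL : L ^ 2 = 5 * f ^ 2 + 4 * e)
    (hs : s = 1 ∨ s = -1)
    (hq : y ^ 2 - L * x * y + e * x ^ 2 = s * f ^ 2)
    (h2 : 2 * y - L * x = f * Lp) (hLp0 : 0 ≤ Lp) (hLp : Lp ≤ 3 * x) (hfx : f * x ≤ y) :
    Y' * x ^ 2 ≤ 195 * y ^ 2 := by
  -- integer part
  set D := a1 * b2 - a2 * b1 with hDdef
  set A1 := b1 ^ 2 - L * a1 * b1 + e * a1 ^ 2 with hA1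
  set B1 := 2 * b1 * b2 - L * (a1 * b2 + a2 * b1) + 2 * e * a1 * a2 with hB1
  set C1 := b2 ^ 2 - L * a2 * b2 + e * a2 ^ 2 with hC1
  have hdisc1 : B1 ^ 2 - 4 * A1 * C1 = 5 * (f * D) ^ 2 := by
    have : B1 ^ 2 - 4 * A1 * C1 = (L ^ 2 - 4 * e) * D ^ 2 := by
      rw [hA1, hB1, hC1, hDdef]; ring
    rw [this, hL]; ring
  obtain ⟨τ, hτ⟩ := htr
  have hdisc2 : (m1 - m4) ^ 2 - 4 * (-m3) * m2 = 9 * τ ^ 2 + 4 := by
    have : (m1 - m4) ^ 2 - 4 * (-m3) * m2 = (m1 + m4) ^ 2 - 4 * (m1 * m4 - m2 * m3) := by ring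
    rw [this, hdet, hτ]; ring
  have hres : Res A1 B1 C1 (-m3) (m1 - m4) m2 ≠ 0 := by
    intro h0
    have h1 := res_disc A1 B1 C1 (-m3) (m1 - m4) m2
    rw [h0, hdisc1, hdisc2] at h1
    refine no_sq' τ (B1 * (m1 - m4) - 2 * A1 * m2 - 2 * (-m3) * C1) (f * D)
      (mul_ne_zero hf.ne' hD) ?_
    linarith
  have hq1 : A1 * X ^ 2 + B1 * X * Y + C1 * Y ^ 2 = s * f ^ 2 := by
    rw [← hq, hA1, hB1, hC1, hx, hy]; ring
  have hq2 : -m3 * X ^ 2 + (m1 - m4) * X * Y + m2 * Y ^ 2 = Y * X' - X * Y' := by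
    have e1 : m1 * Y - m3 * X = - Y' := by
      rw [hMX, hMY]; linear_combination Y' * hdet
    have e2 : m4 * X - m2 * Y = - X' := by
      rw [hMX, hMY]; linear_combination X' * hdet
    linear_combination X * e1 - Y * e2
  have hid := res_id A1 B1 C1 (-m3) (m1 - m4) m2 X Y
  rw [hq1, hq2] at hid
  set P1 := B1 * X + 2 * C1 * Y with hP1
  set P2 := (m1 - m4) * X + 2 * m2 * Y with hP2
  -- relations for C1 and P1
  have hsig : b2 * x = a2 * y + D * X := by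
    rw [hx, hy, hDdef]; ring
  have hC1x : x ^ 2 * C1 = a2 ^ 2 * (s * f ^ 2) + a2 * (D * X) * (f * Lp) + (D * X) ^ 2 := by
    have : x ^ 2 * C1 = (b2 * x) ^ 2 - L * x * a2 * (b2 * x) + e * a2 ^ 2 * x ^ 2 := by
      rw [hC1]; ring
    rw [this, hsig, ← hq, ← h2]; ring
  have hP1x : x * P1 = 2 * a2 * (s * f ^ 2) + (D * X) * (f * Lp) := by
    have e0 : P1 = 2 * y * b2 - L * (y * a2 + x * b2) + 2 * e * x * a2 := by
      rw [hP1, hB1, hC1, hx, hy]; ring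
    have : x * P1 = 2 * y * (b2 * x) - L * x * (y * a2) - L * x * (b2 * x)
        + 2 * e * x ^ 2 * a2 := by
      rw [e0]; ring
    rw [this, hsig, ← hq, ← h2]; ring
  -- real part
  have hxR : (0:ℝ) < x := by exact_mod_cast hx0
  have hyR : (x:ℝ) ≤ y := by exact_mod_cast hxy
  have hXR : (100:ℝ) ≤ X := by exact_mod_cast hX
  have hYR : (1:ℝ) ≤ Y := by exact_mod_cast hY
  have hXYR : (X:ℝ) ≤ 2 * Y := by exact_mod_cast hXY
  have hYXR : (Y:ℝ) ≤ 3 * X := by exact_mod_cast hYX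
  have hX'R : (0:ℝ) < X' := by exact_mod_cast hX'
  have hY'R : (0:ℝ) < Y' := by exact_mod_cast hY'
  have hYX'R : (Y':ℝ) ≤ 3 * X' := by exact_mod_cast hYX'
  set ρ : ℝ := (y:ℝ) / x with hρ
  have hρ1 : 1 ≤ ρ := by rw [hρ, le_div_iff₀ hxR]; linarith
  have hfρ : (f:ℝ) ≤ ρ := by
    rw [hρ, le_div_iff₀ hxR]; exact_mod_cast hfx
  have hf0 : (0:ℝ) < f := by exact_mod_cast hf
  have hDρ : |(D:ℝ)| ≤ 3 * ρ := by
    rw [hρ, mul_div_assoc', le_div_iff₀ hxR]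
    have : ((|D| * x : ℤ) : ℝ) ≤ ((3 * y : ℤ) : ℝ) := by exact_mod_cast hDx
    push_cast at this
    exact this
  have hsR : |(s:ℝ)| = 1 := by
    rcases hs with h | h <;> rw [h] <;> simp
  have ha2R : (0:ℝ) ≤ a2 := by exact_mod_cast ha2
  have ha2Y : (a2:ℝ) * Y ≤ x := by
    have h0 : 0 ≤ a1 * X := mul_nonneg ha1 (by omega)
    have : a2 * Y ≤ x := by rw [hx]; linarith
    exact_mod_cast this
  set t : ℝ := (a2:ℝ) / x with ht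
  have ht0 : 0 ≤ t := by rw [ht]; positivity
  have htY : t * Y ≤ 1 := by
    rw [ht, div_mul_eq_mul_div, div_le_one hxR]; exact ha2Y
  have ht1 : t ≤ 1 := by
    calc t = t * 1 := (mul_one t).symm
      _ ≤ t * Y := mul_le_mul_of_nonneg_left hYR ht0
      _ ≤ 1 := htY
  have htX : t * X ≤ 2 := by
    calc t * X ≤ t * (2 * Y) := mul_le_mul_of_nonneg_left hXYR ht0
      _ = 2 * (t * Y) := by ring
      _ ≤ 2 := by linarith
  set lp : ℝ := (Lp:ℝ) / x with hlp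
  have hlp0 : 0 ≤ lp := by
    have : (0:ℝ) ≤ Lp := by exact_mod_cast hLp0
    rw [hlp]; positivity
  have hlp3 : lp ≤ 3 := by
    rw [hlp, div_le_iff₀ hxR]; exact_mod_cast hLp
  have hX2x : X ≤ 2 * x := int_X2x a1 a2 X Y x (by omega) hY hXY ha1 ha2 hx hx0
  set r : ℝ := (X:ℝ) / x with hr
  have hr0 : 0 ≤ r := by rw [hr]; positivity
  have hr2 : r ≤ 2 := by
    rw [hr, div_le_iff₀ hxR]; exact_mod_cast hX2x
  have bC1 : |(C1:ℝ)| ≤ 55 * ρ ^ 2 := by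
    refine real_C1 C1 t f D X lp r s ρ hsR hρ1 ht0 ht1 htX (by linarith) hf0.le hfρ hDρ hlp0 hlp3
      hr0 hr2 ?_
    have e : (x:ℝ) ^ 2 * C1 = a2 ^ 2 * (s * f ^ 2) + a2 * (D * X) * (f * Lp) + (D * X) ^ 2 := by
      exact_mod_cast hC1x
    have e' : (C1:ℝ) = (a2 ^ 2 * (s * f ^ 2) + a2 * (D * X) * (f * Lp) + (D * X) ^ 2) / x ^ 2 := by
      rw [eq_div_iff (by positivity), ← e]; ring
    rw [e', ht, hlp, hr]
    field_simp
  have bP1 : |(P1:ℝ)| ≤ 11 * ρ ^ 2 * X := by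
    refine real_P1 P1 t f D X lp s ρ hsR hρ1 ht0 ht1 (by linarith) hf0.le hfρ hDρ hlp0 hlp3 ?_
    have e : (x:ℝ) * P1 = 2 * a2 * (s * f ^ 2) + (D * X) * (f * Lp) := by
      exact_mod_cast hP1x
    have e' : (P1:ℝ) = (2 * a2 * (s * f ^ 2) + (D * X) * (f * Lp)) / x := by
      rw [eq_div_iff hxR.ne', ← e]; ring
    rw [e', ht, hlp]
    field_simp
  set U : ℝ := (X:ℝ) / Y' with hU
  have hU0 : 0 < U := by rw [hU]; positivity
  have hm2U : (m2:ℝ) ≤ U := by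
    rw [hU, le_div_iff₀ hY'R]
    have h0 : 0 ≤ m1 * X' := mul_nonneg hm1 hX'.le
    have : m2 * Y' ≤ X := by rw [hMX]; linarith
    exact_mod_cast this
  have hm1U : (m1:ℝ) ≤ 3 * U := by
    have h0 : 0 ≤ m2 * Y' := mul_nonneg hm2 hY'.le
    have h1 : m1 * X' ≤ X := by rw [hMX]; linarith
    have h2 : m1 * Y' ≤ 3 * X := int_m1 m1 X X' Y' hm1 h1 hYX'
    rw [hU, mul_div_assoc', le_div_iff₀ hY'R]
    exact_mod_cast h2
  have hm4U : (m4:ℝ) ≤ 3 * U := by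
    have h0 : 0 ≤ m3 * X' := mul_nonneg hm3 hX'.le
    have h1 : m4 * Y' ≤ 3 * X := by
      have : m4 * Y' ≤ Y := by rw [hMY]; linarith
      linarith
    rw [hU, mul_div_assoc', le_div_iff₀ hY'R]
    exact_mod_cast h1
  have hm1R : (0:ℝ) ≤ m1 := by exact_mod_cast hm1
  have hm2R : (0:ℝ) ≤ m2 := by exact_mod_cast hm2
  have hm4R : (0:ℝ) ≤ m4 := by exact_mod_cast hm4
  have bC2 : |(m2:ℝ)| ≤ U := by rw [abs_of_nonneg hm2R]; exact hm2U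
  have bP2 : |(P2:ℝ)| ≤ 9 * X * U := by
    have e : (P2:ℝ) = (m1 - m4) * X + 2 * m2 * Y := by
      rw [hP2]; push_cast; ring
    have hXp : (0:ℝ) ≤ X := by linarith
    have h1 : |((m1:ℝ) - m4) * X| ≤ 3 * U * X := by
      rw [abs_mul, abs_of_nonneg hXp]
      refine mul_le_mul_of_nonneg_right ?_ hXp
      rw [abs_le]; constructor <;> linarith
    have h2 : |2 * (m2:ℝ) * Y| ≤ 6 * U * X := by
      rw [abs_of_nonneg (by positivity)]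
      have : (m2:ℝ) * Y ≤ U * (3 * X) := mul_le_mul hm2U hYXR (by positivity) hU0.le
      linarith
    rw [e]
    calc |((m1:ℝ) - m4) * X + 2 * m2 * Y| ≤ |((m1:ℝ) - m4) * X| + |2 * (m2:ℝ) * Y| := abs_add_le _ _
      _ ≤ 9 * X * U := by linarith
  have hXkU : (Xk:ℝ) ≤ 6 * U := by
    have h2 : Xk * Y' ≤ 6 * X := int_Xk X X' Y' Xk Yk g1 hXk hX' hXk2 hYX' hg1 hG
    rw [hU, mul_div_assoc', le_div_iff₀ hY'R]
    exact_mod_cast h2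
  have bq1 : |((s * f ^ 2 : ℤ) : ℝ)| ≤ ρ ^ 2 := by
    push_cast
    rw [abs_mul, hsR, one_mul, abs_of_nonneg (by positivity)]
    exact pow_le_pow_left₀ hf0.le hfρ 2
  have bq2 : |((Y * X' - X * Y' : ℤ) : ℝ)| ≤ 6 * U := by
    have : |(Y * X' - X * Y' : ℤ)| = Xk := by
      rcases hw with h | h
      · have : Y * X' - X * Y' = - Xk := by linarith
        rw [this, abs_neg, abs_of_pos hXk]
      · have : Y * X' - X * Y' = Xk := by linarith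
        rw [this, abs_of_pos hXk]
    rw [← Int.cast_abs, this]
    exact hXkU
  have bR : (1:ℝ) ≤ |((Res A1 B1 C1 (-m3) (m1 - m4) m2 : ℤ) : ℝ)| := by
    have : (1:ℤ) ≤ |Res A1 B1 C1 (-m3) (m1 - m4) m2| := Int.one_le_abs hres
    exact_mod_cast this
  have fin := real_final X U ρ ((s * f ^ 2 : ℤ) : ℝ) ((Y * X' - X * Y' : ℤ) : ℝ) C1 m2 P1 P2
    ((Res A1 B1 C1 (-m3) (m1 - m4) m2 : ℤ) : ℝ) Y' hXR hY'R hU hρ1 bq1 bq2 bC1 bC2 bP1 bP2 bR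
    (by exact_mod_cast hid)
  have : (Y':ℝ) * x ^ 2 ≤ 195 * y ^ 2 := by
    have e : ρ * x = y := by rw [hρ]; field_simp
    calc (Y':ℝ) * x ^ 2 ≤ 195 * ρ ^ 2 * x ^ 2 := mul_le_mul_of_nonneg_right fin (by positivity)
      _ = 195 * (ρ * x) ^ 2 := by ring
      _ = 195 * y ^ 2 := by rw [e]
  exact_mod_cast this

end Pool.Agent.Lib.MP_b24f15_nt.Gap
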