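import Mathlib
import Pool.Agent.Lib.MP_b24f15_nt.Gap.Trans
import Pool.Agent.Lib.MP_b24f15_nt.Gap.Core

/-!
# Two common values give two linear forms; Fibonacci identities
-/

set_option autoImplicit false

namespace Pool.Agent.Lib.MP_b24f15_nt.Gap

theorem cassini (n : ℕ) :
    (Nat.fib (n + 1) : ℤ) ^ 2 - Nat.fib (n + 1) * Nat.fib n - (Nat.fib n : ℤ) ^ 2 = (-1) ^ n := by
  induction n with
  | zero => simp
  | succ n ih =>
    have h : (Nat.fib (n + 1 + 1) : ℤ) = Nat.fib n + Nat.fib (n + 1) := by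
      exact_mod_cast Nat.fib_add_two
    rw [h, pow_succ (-1 : ℤ) n, ← ih]; ring

/-- all Fibonacci facts used -/
theorem fib_facts (p q : ℕ) (hp : 0 < p) (hpq : p < q) :
    ∃ f L Lp e s : ℤ, 0 < f ∧ L ^ 2 = 5 * f ^ 2 + 4 * e ∧ (s = 1 ∨ s = -1) ∧
      (Nat.fib q : ℤ) ^ 2 - L * Nat.fib p * Nat.fib q + e * (Nat.fib p : ℤ) ^ 2 = s * f ^ 2 ∧
      2 * (Nat.fib q : ℤ) - L * Nat.fib p = f * Lp ∧ 0 ≤ Lp ∧ Lp ≤ 3 * Nat.fib p ∧
      f * Nat.fib p ≤ Nat.fib q := by
  obtain ⟨P, rfl⟩ : ∃ P, p = P + 1 := ⟨p - 1, by omega⟩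
  obtain ⟨D, rfl⟩ : ∃ D, q = (P + 1) + D + 1 := ⟨q - (P + 1) - 1, by omega⟩
  have h1 : (Nat.fib ((P + 1) + D + 1) : ℤ)
      = Nat.fib (P + 1) * Nat.fib D + (Nat.fib P + Nat.fib (P + 1)) * Nat.fib (D + 1) := by
    have := Nat.fib_add (P + 1) D
    have h2 : Nat.fib (P + 1 + 1) = Nat.fib P + Nat.fib (P + 1) := Nat.fib_add_two
    rw [this, h2]; push_cast; ring
  have hc1 := cassini P
  have hc2 := cassini D
  have ha : (Nat.fib P : ℤ) ≤ Nat.fib (P + 1) := by exact_mod_cast Nat.fib_le_fib_succ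
  have ha0 : (0 : ℤ) ≤ Nat.fib P := by positivity
  have hb0 : (0 : ℤ) ≤ Nat.fib (P + 1) := by positivity
  have hd0 : (0 : ℤ) ≤ Nat.fib D := by positivity
  have hd1 : (0 : ℤ) < Nat.fib (D + 1) := by
    exact_mod_cast Nat.fib_pos.mpr (Nat.succ_pos D)
  refine ⟨Nat.fib (D + 1), 2 * Nat.fib D + Nat.fib (D + 1), 2 * Nat.fib P + Nat.fib (P + 1),
    - (-1) ^ D, - (-1) ^ P, hd1, ?_, ?_, ?_, ?_, ?_, ?_, ?_⟩
  · rw [← hc2]; ring
  · rcases neg_one_pow_eq_or ℤ P with h | h <;> rw [h] <;> simp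
  · rw [h1, ← hc1, ← hc2]; ring
  · rw [h1]; ring
  · linarith
  · linarith
  · rw [h1]
    have e1 : 0 ≤ (Nat.fib (P + 1) : ℤ) * Nat.fib D := mul_nonneg hb0 hd0
    have e2 : 0 ≤ (Nat.fib P : ℤ) * Nat.fib (D + 1) := mul_nonneg ha0 hd1.le
    linarith

theorem row_facts (n l : ℕ) (r : Fin 2) :
    (P n l r 0 = 0 → P n l r 1 = 1) ∧ (P n l r 1 = 0 → P n l r 0 = 1) := by
  have h := P_det' n l
  have h00 := P_nonneg n l 0 0
  have h01 := P_nonneg n l 0 1
  have h10 := P_nonneg n l 1 0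
  have h11 := P_nonneg n l 1 1
  have key : ∀ a b : ℤ, 0 ≤ a → 0 ≤ b → (a * b = 1 ∨ a * b = -1) → a = 1 ∧ b = 1 := by
    intro a b ha hb h
    have hab : 0 ≤ a * b := mul_nonneg ha hb
    rcases h with h | h
    · exact ⟨Int.eq_one_of_mul_eq_one_right ha h, Int.eq_one_of_mul_eq_one_left hb h⟩
    · omega
  have negkey : ∀ a b : ℤ, 0 ≤ a → 0 ≤ b → (- (a * b) = 1 ∨ - (a * b) = -1) → a = 1 ∧ b = 1 := by
    intro a b ha hb h
    refine key a b ha hb ?_
    rcases h with h | h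
    · right; omega
    · left; omega
  fin_cases r
  · constructor
    · intro h0
      change P n l 0 0 = 0 at h0
      change P n l 0 1 = 1
      rw [h0] at h
      refine (negkey _ _ h01 h10 ?_).1
      simpa using h
    · intro h0
      change P n l 0 1 = 0 at h0
      change P n l 0 0 = 1
      rw [h0] at h
      refine (key _ _ h00 h11 ?_).1
      simpa using h
  · constructor
    · intro h0
      change P n l 1 0 = 0 at h0
      change P n l 1 1 = 1
      rw [h0] at h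
      refine (key _ _ h00 h11 ?_).2
      simpa using h
    · intro h0
      change P n l 1 1 = 0 at h0
      change P n l 1 0 = 1
      rw [h0] at h
      refine (negkey _ _ h01 h10 ?_).2
      simpa using h

/-- the value `y` at a later level `j` in terms of the level `i` -/
theorem later (i j : ℕ) (hij : i ≤ j) (y : ℤ) (hy : y = X j ∨ y = Y j) :
    ∃ c d : ℤ, 0 ≤ c ∧ 0 ≤ d ∧ y = c * X i + d * Y i ∧ (c = 0 → d = 1) ∧ (d = 0 → c = 1) := by
  obtain ⟨l, rfl⟩ : ∃ l, j = i + l := ⟨j - i, by omega⟩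
  obtain ⟨h1, h2⟩ := P_vec i l
  rcases hy with h | h
  · exact ⟨P i l 0 0, P i l 0 1, P_nonneg _ _ _ _, P_nonneg _ _ _ _, by rw [h, h1],
      (row_facts i l 0).1, (row_facts i l 0).2⟩
  · exact ⟨P i l 1 0, P i l 1 1, P_nonneg _ _ _ _, P_nonneg _ _ _ _, by rw [h, h2],
      (row_facts i l 1).1, (row_facts i l 1).2⟩

theorem pair (n i j : ℕ) (x y : ℤ) (hn : n ≤ i) (hij : i ≤ j) (hi : 0 < i)
    (hx : x = X i ∨ x = Y i) (hy : y = X j ∨ y = Y j) (hne : x ≠ y) :
    ∃ a1 a2 b1 b2 : ℤ, 0 ≤ a1 ∧ 0 ≤ a2 ∧ 0 ≤ b1 ∧ 0 ≤ b2 ∧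
      x = a1 * X n + a2 * Y n ∧ y = b1 * X n + b2 * Y n ∧
      a1 * b2 - a2 * b1 ≠ 0 ∧ |a1 * b2 - a2 * b1| * x ≤ 3 * y := by
  obtain ⟨l, rfl⟩ : ∃ l, i = n + l := ⟨i - n, by omega⟩
  obtain ⟨c, d, hc, hd, hy', hc0, hd0⟩ := later (n + l) j hij y hy
  obtain ⟨h1, h2⟩ := P_vec n l
  have hdet := P_det' n l
  have p00 := P_nonneg n l 0 0
  have p01 := P_nonneg n l 0 1
  have p10 := P_nonneg n l 1 0
  have p11 := P_nonneg n l 1 1
  have hXi := X_pos (n + l) hi
  have hYi := Y_pos (n + l)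
  have hXY := X_le (n + l)
  have hYX := Y_le (n + l) hi
  rcases hx with hx | hx
  · refine ⟨P n l 0 0, P n l 0 1, c * P n l 0 0 + d * P n l 1 0, c * P n l 0 1 + d * P n l 1 1,
      p00, p01, by positivity, by positivity, by rw [hx, h1], by rw [hy', h1, h2]; ring, ?_, ?_⟩
    · have e : P n l 0 0 * (c * P n l 0 1 + d * P n l 1 1)
          - P n l 0 1 * (c * P n l 0 0 + d * P n l 1 0)
          = d * (P n l 0 0 * P n l 1 1 - P n l 0 1 * P n l 1 0) := by ring
      rw [e]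
      intro h0
      have hd' : d = 0 := by
        rcases hdet with h | h <;> rw [h] at h0 <;> omega
      have hc' := hd0 hd'
      apply hne
      rw [hx, hy', hc', hd']; ring
    · have e : P n l 0 0 * (c * P n l 0 1 + d * P n l 1 1)
          - P n l 0 1 * (c * P n l 0 0 + d * P n l 1 0)
          = d * (P n l 0 0 * P n l 1 1 - P n l 0 1 * P n l 1 0) := by ring
      rw [e, abs_mul]
      have : |P n l 0 0 * P n l 1 1 - P n l 0 1 * P n l 1 0| = 1 := by
        rcases hdet with h | h <;> rw [h] <;> simp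
      rw [this, mul_one, abs_of_nonneg hd, hx, hy']
      have e1 : d * X (n + l) ≤ d * (2 * Y (n + l)) := mul_le_mul_of_nonneg_left hXY hd
      have e2 : 0 ≤ c * X (n + l) := mul_nonneg hc hXi.le
      have e3 : 0 ≤ d * Y (n + l) := mul_nonneg hd hYi.le
      linarith
  · refine ⟨P n l 1 0, P n l 1 1, c * P n l 0 0 + d * P n l 1 0, c * P n l 0 1 + d * P n l 1 1,
      p10, p11, by positivity, by positivity, by rw [hx, h2], by rw [hy', h1, h2]; ring, ?_, ?_⟩
    · have e : P n l 1 0 * (c * P n l 0 1 + d * P n l 1 1)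
          - P n l 1 1 * (c * P n l 0 0 + d * P n l 1 0)
          = - (c * (P n l 0 0 * P n l 1 1 - P n l 0 1 * P n l 1 0)) := by ring
      rw [e]
      intro h0
      have hc' : c = 0 := by
        rcases hdet with h | h <;> rw [h] at h0 <;> omega
      have hd' := hc0 hc'
      apply hne
      rw [hx, hy', hc', hd']; ring
    · have e : P n l 1 0 * (c * P n l 0 1 + d * P n l 1 1)
          - P n l 1 1 * (c * P n l 0 0 + d * P n l 1 0)
          = - (c * (P n l 0 0 * P n l 1 1 - P n l 0 1 * P n l 1 0)) := by ring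
      rw [e, abs_neg, abs_mul]
      have : |P n l 0 0 * P n l 1 1 - P n l 0 1 * P n l 1 0| = 1 := by
        rcases hdet with h | h <;> rw [h] <;> simp
      rw [this, mul_one, abs_of_nonneg hc, hx, hy']
      have e1 : c * Y (n + l) ≤ c * (3 * X (n + l)) := mul_le_mul_of_nonneg_left hYX hc
      have e2 : 0 ≤ c * X (n + l) := mul_nonneg hc hXi.le
      have e3 : 0 ≤ d * Y (n + l) := mul_nonneg hd hYi.le
      linarith

end Pool.Agent.Lib.MP_b24f15_nt.Gap
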