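import Mathlib
import Pool.Agent.Lib.MP_b24f15_nt.Gap.Pair

/-!
# The gap inequality
-/

set_option autoImplicit false

namespace Pool.Agent.Lib.MP_b24f15_nt.Gap

theorem Y_sq (k : ℕ) (hk : 1 ≤ k) : Y (2 ^ (k + 1) - 1) ≤ 9 * (Y (2 ^ k - 1)) ^ 2 := by
  have hp : 0 < (2:ℕ) ^ k := by positivity
  obtain ⟨_, h2⟩ := G_act k
  obtain ⟨_, h4⟩ := G_col k
  have h5 := G_le k hk 1
  have hX := X_nonneg (2 ^ k)
  have hY' := Y_pos (2 ^ k - 1)
  have e1 : Y (2 ^ k + 1) ≤ 3 * Y (2 ^ k) := Y_succ_le _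
  have e2 : Y (2 ^ k - 1 + 1) ≤ 3 * Y (2 ^ k - 1) := Y_succ_le _
  rw [show 2 ^ k - 1 + 1 = 2 ^ k by omega] at e2
  have e3 : Y (2 ^ k + 1) = X (2 ^ k) + Y (2 ^ k) := Y_succ _
  rw [h4] at h2 h5
  calc Y (2 ^ (k + 1) - 1) = G k 1 0 * X (2 ^ k) + Y (2 ^ k - 1) * Y (2 ^ k) := h2
    _ ≤ Y (2 ^ k - 1) * X (2 ^ k) + Y (2 ^ k - 1) * Y (2 ^ k) := by
        have := mul_le_mul_of_nonneg_right h5 hX
        linarith
    _ = Y (2 ^ k - 1) * Y (2 ^ k + 1) := by rw [e3]; ring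
    _ ≤ Y (2 ^ k - 1) * (9 * Y (2 ^ k - 1)) := mul_le_mul_of_nonneg_left (by linarith) hY'.le
    _ = 9 * (Y (2 ^ k - 1)) ^ 2 := by ring

theorem Y_fourth (k : ℕ) (hk : 1 ≤ k) : Y (2 ^ (k + 2) - 1) ≤ 729 * (Y (2 ^ k - 1)) ^ 4 := by
  have h1 := Y_sq k hk
  have h2 := Y_sq (k + 1) (by omega)
  have hp := (Y_pos (2 ^ (k + 1) - 1)).le
  have h3 : (Y (2 ^ (k + 1) - 1)) ^ 2 ≤ (9 * (Y (2 ^ k - 1)) ^ 2) ^ 2 := pow_le_pow_left₀ hp h1 2
  calc Y (2 ^ (k + 2) - 1) ≤ 9 * (Y (2 ^ (k + 1) - 1)) ^ 2 := h2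
    _ ≤ 9 * (9 * (Y (2 ^ k - 1)) ^ 2) ^ 2 := by linarith
    _ = 729 * (Y (2 ^ k - 1)) ^ 4 := by ring

theorem Y_two (n : ℕ) (hn : 0 < n) : 7 * Y n ≤ 3 * Y (n + 2) := by
  have h1 : Y (n + 2) = X (n + 1) + Y (n + 1) := Y_succ (n + 1)
  have h2 : Y (n + 1) = X n + Y n := Y_succ n
  have h3 : X (n + 1) = (1 + cc (n + 1)) * X n + Y n := X_succ n
  have h4 := Y_le n hn
  have h5 := X_pos n hn
  have h6 : 0 ≤ (1 + cc (n + 1)) * X n := by
    rcases cc_cases (n + 1) with h | h <;> rw [h]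
    · omega
    · simp
  rw [h1, h2, h3]; linarith

theorem Y_fifteen : 300 ≤ Y 15 := by
  have h1 := Y_two 1 (by norm_num)
  have h3 := Y_two 3 (by norm_num)
  have h5 := Y_two 5 (by norm_num)
  have h7 := Y_two 7 (by norm_num)
  have h9 := Y_two 9 (by norm_num)
  have h11 := Y_two 11 (by norm_num)
  have h13 := Y_two 13 (by norm_num)
  have h0 := Y_pos 1
  norm_num at h1 h3 h5 h7 h9 h11 h13
  omega

/-- the gap inequality for two values at levels `i, j ≥ 15` -/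
theorem gap_aux (x y : ℤ) (p q i j μ : ℕ) (hp : 0 < p) (hpq : p < q) (hx : x = Nat.fib p)
    (hy : y = Nat.fib q) (hxy : x < y) (hi : x = X i ∨ x = Y i) (hj : y = X j ∨ y = Y j)
    (hμ : μ = min i j) (h15 : 15 ≤ μ) :
    x ^ 9 ≤ 1458 * 195 ^ 4 * y ^ 8 := by
  obtain ⟨f, L, Lp, e, s, hf, hL, hs, hq, h2, hLp0, hLp, hfx⟩ := fib_facts p q hp hpq
  rw [← hx, ← hy] at hq h2 hfx
  rw [← hx] at hLp
  -- the scale
  obtain ⟨k, hk3, hk1, hk2⟩ : ∃ k, 3 ≤ k ∧ 2 ^ (k + 1) - 1 ≤ μ ∧ μ ≤ 2 ^ (k + 2) - 1 := by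
    refine ⟨Nat.log 2 (μ + 1) - 1, ?_, ?_, ?_⟩
    · have : 4 ≤ Nat.log 2 (μ + 1) := by
        have h16 : 2 ^ 4 ≤ μ + 1 := by omega
        exact Nat.le_log_of_pow_le (by norm_num) h16
      omega
    · have h4 : 4 ≤ Nat.log 2 (μ + 1) := by
        have h16 : 2 ^ 4 ≤ μ + 1 := by omega
        exact Nat.le_log_of_pow_le (by norm_num) h16
      have := Nat.pow_log_le_self 2 (show μ + 1 ≠ 0 by omega)
      rw [show Nat.log 2 (μ + 1) - 1 + 1 = Nat.log 2 (μ + 1) by omega]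
      omega
    · have h4 : 4 ≤ Nat.log 2 (μ + 1) := by
        have h16 : 2 ^ 4 ≤ μ + 1 := by omega
        exact Nat.le_log_of_pow_le (by norm_num) h16
      have := Nat.lt_pow_succ_log_self (b := 2) (by norm_num) (μ + 1)
      rw [show Nat.log 2 (μ + 1) - 1 + 2 = (Nat.log 2 (μ + 1)).succ by omega]
      omega
  set n := 2 ^ (k + 1) - 1 with hn
  have hk2' : (2:ℕ) ^ (k + 1) = 2 * 2 ^ k := by rw [pow_succ]; ring
  have hk8 : 8 ≤ (2:ℕ) ^ k := by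
    calc 8 = 2 ^ 3 := by norm_num
      _ ≤ 2 ^ k := Nat.pow_le_pow_right (by norm_num) hk3
  have hn15 : 15 ≤ n := by omega
  have hx0 : 0 < x := by rw [hx]; exact_mod_cast Nat.fib_pos.mpr hp
  have hi0 : 0 < i := by omega
  have hj0 : 0 < j := by omega
  -- the two linear forms
  obtain ⟨a1, a2, b1, b2, ha1, ha2, hb1, hb2, hxa, hyb, hD, hDx⟩ :
      ∃ a1 a2 b1 b2 : ℤ, 0 ≤ a1 ∧ 0 ≤ a2 ∧ 0 ≤ b1 ∧ 0 ≤ b2 ∧
      x = a1 * X n + a2 * Y n ∧ y = b1 * X n + b2 * Y n ∧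
      a1 * b2 - a2 * b1 ≠ 0 ∧ |a1 * b2 - a2 * b1| * x ≤ 3 * y := by
    rcases le_total i j with hij | hij
    · exact pair n i j x y (by omega) hij hi0 hi hj hxy.ne
    · obtain ⟨b1, b2, a1, a2, hb1, hb2, ha1, ha2, hyb, hxa, hD, hDy⟩ :=
        pair n j i y x (by omega) hij hj0 hj hi hxy.ne'
      refine ⟨a1, a2, b1, b2, ha1, ha2, hb1, hb2, hxa, hyb, ?_, ?_⟩
      · intro h0; apply hD; linarith
      · have e : |a1 * b2 - a2 * b1| = |b1 * a2 - b2 * a1| := by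
          rw [← abs_neg]; congr 1; ring
        rw [e]
        have : |b1 * a2 - b2 * a1| * x ≤ |b1 * a2 - b2 * a1| * y :=
          mul_le_mul_of_nonneg_left hxy.le (abs_nonneg _)
        linarith
  have hX100 : 100 ≤ X n := by
    have h1 := Y_mono hn15
    have h2 := Y_le n (by omega)
    have h3 := Y_fifteen
    omega
  have hp2 : 0 < 2 ^ k - 1 := by omega
  have hcore := core x y (X n) (Y n) (X (2 ^ k - 1)) (Y (2 ^ k - 1)) (X (2 ^ k)) (Y (2 ^ k))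
    (G k 0 0) (M k 0 0) (M k 0 1) (M k 1 0) (M k 1 1) a1 a2 b1 b2 f L Lp e s
    hX100 (Y_pos n) (X_le n) (Y_le n (by omega)) (X_pos _ hp2) (Y_pos _) (Y_le _ hp2)
    (X_pos _ (by omega)) (X_le _) (M_nonneg _ _ _) (M_nonneg _ _ _) (M_nonneg _ _ _)
    (M_nonneg _ _ _) (M_act k).1 (M_act k).2 (M_det' k) (M_trace k (by omega)) (wedge k)
    (G_nonneg _ _ _) (by rw [← (G_col k).1]; exact (G_act k).1) ha1 ha2 hb1 hb2 hxa hyb hD hDx
    hx0 hxy.le hf hL hs (by linarith [hq]) h2 hLp0 hLp hfx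
  -- upper bound of x
  have hx2 : x ≤ 1458 * (Y (2 ^ k - 1)) ^ 4 := by
    have hYμ : Y μ ≤ 729 * (Y (2 ^ k - 1)) ^ 4 := (Y_mono hk2).trans (Y_fourth k (by omega))
    have hxμ : x ≤ 2 * Y μ := by
      rcases le_total i j with hij | hij
      · have : μ = i := by omega
        rw [this]
        rcases hi with h | h
        · rw [h]; exact X_le i
        · rw [h]; have := Y_pos i; omega
      · have : μ = j := by omega
        rw [this]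
        rcases hj with h | h
        · have := X_le j; omega
        · have := Y_pos j; omega
    linarith
  have hY0 : 0 < Y (2 ^ k - 1) := Y_pos _
  calc x ^ 9 = x * (x ^ 2) ^ 4 := by ring
    _ ≤ 1458 * (Y (2 ^ k - 1)) ^ 4 * (x ^ 2) ^ 4 :=
        mul_le_mul_of_nonneg_right hx2 (by positivity)
    _ = 1458 * (Y (2 ^ k - 1) * x ^ 2) ^ 4 := by ring
    _ ≤ 1458 * (195 * y ^ 2) ^ 4 := by
        have : (Y (2 ^ k - 1) * x ^ 2) ^ 4 ≤ (195 * y ^ 2) ^ 4 :=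
          pow_le_pow_left₀ (by positivity) hcore 4
        linarith
    _ = 1458 * 195 ^ 4 * y ^ 8 := by ring

end Pool.Agent.Lib.MP_b24f15_nt.Gap
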