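import Mathlib
import Pool.Agent.Lib.MP_b24f15_nt.Gap.Main
import Pool.Agent.Lib.MP_b24f15_nt.Gap.Check

/-!
# Conclusion
-/

set_option autoImplicit false

namespace Pool.Agent.Lib.MP_b24f15_nt.Gap

/-- values `|h n|` are values `X i` or `Y i` -/
theorem level (h : ℕ → ℤ) (h0 : h 0 = 0) (h1 : h 1 = 1)
    (hrec : ∀ n, h (n + 2) = (-1) ^ (Nat.digits 2 (n + 2)).sum * h (n + 1) + h n) (n : ℕ) :
    ∃ i, |h n| = X i ∨ |h n| = Y i := by
  obtain ⟨a0, a1, a2, a3⟩ := h_formula h h0 h1 hrec (n / 4)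
  have hX := X_nonneg (n / 4)
  have hY := (Y_pos (n / 4)).le
  have hY' := (Y_pos (n / 4 + 1)).le
  have ht : |tm (n / 4)| = 1 := by
    rcases tm_cases (n / 4) with h | h <;> rw [h] <;> simp
  have h4 : n = 4 * (n / 4) + n % 4 := by omega
  have hlt : n % 4 < 4 := Nat.mod_lt _ (by norm_num)
  generalize hr : n % 4 = r at h4 hlt
  interval_cases r
  · refine ⟨n / 4, Or.inl ?_⟩
    rw [h4, add_zero]
    rw [a0, abs_neg, abs_of_nonneg]
    · congr 1; omega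
    · exact X_nonneg _
  · refine ⟨n / 4, Or.inr ?_⟩
    rw [h4, a1, abs_mul, ht, one_mul, abs_of_nonneg hY]
    congr 1; omega
  · refine ⟨n / 4 + 1, Or.inr ?_⟩
    rw [h4, a2, abs_neg, abs_of_nonneg hY']
    congr 1; omega
  · refine ⟨n / 4, Or.inl ?_⟩
    rw [h4, a3, abs_mul, abs_neg, ht, one_mul, abs_of_nonneg hX]
    congr 1; omega

/-- membership in the set of common absolute values -/
def S (h : ℕ → ℤ) (x : ℕ) : Prop := (∃ m, x = Nat.fib m) ∧ ∃ n, |h n| = (x : ℤ)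

theorem Y_lower (i : ℕ) (hi : i < 15) : Y i ≤ Y 15 := Y_mono hi.le

theorem Y_fifteen_le : Y 15 ≤ 3 ^ 15 := by
  have h := Y_succ_le
  have h0 := h 0
  have h1 := h 1
  have h2 := h 2
  have h3 := h 3
  have h4 := h 4
  have h5 := h 5
  have h6 := h 6
  have h7 := h 7
  have h8 := h 8
  have h9 := h 9
  have h10 := h 10
  have h11 := h 11
  have h12 := h 12
  have h13 := h 13
  have h14 := h 14
  have hz := Y_zero
  norm_num at h0 h1 h2 h3 h4 h5 h6 h7 h8 h9 h10 h11 h12 h13 h14 ⊢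
  omega

theorem gap_one (h : ℕ → ℤ) (h0 : h 0 = 0) (h1 : h 1 = 1)
    (hrec : ∀ n, h (n + 2) = (-1) ^ (Nat.digits 2 (n + 2)).sum * h (n + 1) + h n)
    (x y : ℕ) (hx : S h x) (hy : S h y) (hxy : x < y) :
    x ^ 9 ≤ 1458 * 195 ^ 4 * y ^ 8 := by
  rcases le_or_gt x (1458 * 195 ^ 4) with hsmall | hbig
  · calc x ^ 9 = x * x ^ 8 := by ring
      _ ≤ (1458 * 195 ^ 4) * y ^ 8 :=
        Nat.mul_le_mul hsmall (Nat.pow_le_pow_left hxy.le 8)
  · obtain ⟨⟨p, hp⟩, ⟨n, hn⟩⟩ := hx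
    obtain ⟨⟨q, hq⟩, ⟨m, hm⟩⟩ := hy
    obtain ⟨i, hi⟩ := level h h0 h1 hrec n
    obtain ⟨j, hj⟩ := level h h0 h1 hrec m
    rw [hn] at hi
    rw [hm] at hj
    have hp0 : 0 < p := by
      rcases Nat.eq_zero_or_pos p with h | h
      · subst h; simp at hp; omega
      · exact h
    have hpq : p < q := by
      by_contra hcon
      have := Nat.fib_mono (not_lt.mp hcon)
      omega
    have hlev : ∀ (v : ℕ) (i : ℕ), x ≤ v → ((v:ℤ) = X i ∨ (v:ℤ) = Y i) → 15 ≤ i := by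
      intro v i hv hvi
      by_contra hcon
      have e1 := Y_lower i (by omega)
      have e2 := Y_fifteen_le
      have e3 := X_le i
      have e4 := Y_pos i
      have : (v : ℤ) ≤ 2 * 3 ^ 15 := by
        rcases hvi with h | h <;> rw [h] <;> linarith
      norm_num at this hbig
      omega
    have := gap_aux (x : ℤ) (y : ℤ) p q i j (min i j) hp0 hpq (by exact_mod_cast hp)
      (by exact_mod_cast hq) (by exact_mod_cast hxy) hi hj rfl
      (le_min (hlev x i le_rfl hi) (hlev y j hxy.le hj))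
    exact_mod_cast this

theorem big (h : ℕ → ℤ) (h0 : h 0 = 0) (h1 : h 1 = 1)
    (hrec : ∀ n, h (n + 2) = (-1) ^ (Nat.digits 2 (n + 2)).sum * h (n + 1) + h n)
    (x : ℕ) (hx : S h x) (h5 : 5 < x) : (1458 * 195 ^ 4) ^ 9 < x := by
  obtain ⟨⟨p, hp⟩, ⟨n, hn⟩⟩ := hx
  obtain ⟨i, hi⟩ := level h h0 h1 hrec n
  rw [hn] at hi
  obtain ⟨c1, c2⟩ := check_460
  have hi460 : 460 < i := by
    by_contra hcon
    rcases Nat.eq_zero_or_pos i with h | h
    · subst h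
      rw [X_zero, Y_zero] at hi
      omega
    · obtain ⟨o1, o2⟩ := c1 i h (by omega)
      have hok : OK (x : ℤ) := by
        rcases hi with h | h
        · rw [h]; exact o1
        · rw [h]; exact o2
      rcases hok with h | h
      · omega
      · exact h p (by exact_mod_cast hp.symm)
  have e1 : Y 460 ≤ Y i := Y_mono hi460.le
  have e2 := Y_le i (by omega)
  have e3 : (10:ℤ) ^ 112 ≤ 3 * x := by
    rcases hi with h | h
    · rw [h]; linarith
    · rw [h]; have := Y_pos i; linarith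
  have e4 : 10 ^ 112 ≤ 3 * x := by exact_mod_cast e3
  norm_num at e4 ⊢
  omega

theorem gap_two (h : ℕ → ℤ) (h0 : h 0 = 0) (h1 : h 1 = 1)
    (hrec : ∀ n, h (n + 2) = (-1) ^ (Nat.digits 2 (n + 2)).sum * h (n + 1) + h n)
    (x y : ℕ) (hx : S h x) (hy : S h y) (hxy : x < y) (h5 : 5 < y) :
    x ^ 10 < y ^ 9 := by
  rcases le_or_gt x 5 with hs | hb
  · calc x ^ 10 ≤ 5 ^ 10 := Nat.pow_le_pow_left hs 10
      _ < 6 ^ 9 := by norm_num
      _ ≤ y ^ 9 := Nat.pow_le_pow_left h5 9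
  · have hbig := big h h0 h1 hrec x hx hb
    have hg := gap_one h h0 h1 hrec x y hx hy hxy
    by_contra hcon
    have hcon' : y ^ 9 ≤ x ^ 10 := not_lt.mp hcon
    set K := 1458 * 195 ^ 4 with hK
    have hx0 : 0 < x := by omega
    have a1 : (x ^ 9) ^ 9 ≤ (K * y ^ 8) ^ 9 := Nat.pow_le_pow_left hg 9
    have a2 : (y ^ 9) ^ 8 ≤ (x ^ 10) ^ 8 := Nat.pow_le_pow_left hcon' 8
    have a3 : x * x ^ 80 ≤ K ^ 9 * x ^ 80 := by
      calc x * x ^ 80 = (x ^ 9) ^ 9 := by ring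
        _ ≤ (K * y ^ 8) ^ 9 := a1
        _ = K ^ 9 * (y ^ 9) ^ 8 := by ring
        _ ≤ K ^ 9 * (x ^ 10) ^ 8 := Nat.mul_le_mul_left _ a2
        _ = K ^ 9 * x ^ 80 := by ring
    have a4 : x ≤ K ^ 9 := Nat.le_of_mul_le_mul_right a3 (by positivity)
    omega

end Pool.Agent.Lib.MP_b24f15_nt.Gap
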