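import Mathlib
import Pool.Agent.Lib.MP_b24f15_nt.Gap.Final

/-!
# Counting the common values
-/

set_option autoImplicit false

namespace Pool.Agent.Lib.MP_b24f15_nt.Gap

/-- a set of naturals whose elements grow like iterated `10/9`-th powers -/
theorem chain (Q : ℕ → Prop) (hQ1 : ∀ x, Q x → 16 ≤ x)
    (hQ2 : ∀ x y, Q x → Q y → x < y → x ^ 10 < y ^ 9) (s : Finset ℕ) :
    (∀ a ∈ s, Q a) → ∀ T : ℕ, (∀ a ∈ s, a ≤ T) → s.Nonempty →
      (10 / 9 : ℝ) ^ (s.card - 1) * Real.exp 1 ≤ Real.log T := by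
  induction s using Finset.induction_on_max with
  | empty => intro _ _ _ h; exact absurd h (by simp)
  | insert a s hmax ih =>
    intro hQ T hT _
    have hane : a ∉ s := fun h => lt_irrefl _ (hmax a h)
    have haQ : Q a := hQ a (Finset.mem_insert_self _ _)
    have haT : a ≤ T := hT a (Finset.mem_insert_self _ _)
    have ha16 : 16 ≤ a := hQ1 a haQ
    have hlogaT : Real.log a ≤ Real.log T := by
      apply Real.log_le_log
      · exact_mod_cast (by omega : 0 < a)
      · exact_mod_cast haT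
    rcases s.eq_empty_or_nonempty with hs | hs
    · subst hs
      have hexp : Real.exp 1 ≤ Real.log a := by
        have h1 : Real.log 16 ≤ Real.log a := by
          apply Real.log_le_log (by norm_num)
          exact_mod_cast ha16
        have h2 : Real.log 16 = 4 * Real.log 2 := by
          rw [show (16:ℝ) = 2 ^ 4 by norm_num, Real.log_pow]; norm_num
        have h3 := Real.log_two_gt_d9
        have h4 := Real.exp_one_lt_d9
        linarith
      simp
      linarith
    · have hb := s.max' hs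
      have hbmem := s.max'_mem hs
      have ih' := ih (fun b hb => hQ b (Finset.mem_insert_of_mem hb)) (s.max' hs)
        (fun b hb => s.le_max' b hb) hs
      have hbQ : Q (s.max' hs) := hQ _ (Finset.mem_insert_of_mem hbmem)
      have hlt := hQ2 _ _ hbQ haQ (hmax _ hbmem)
      have hb16 := hQ1 _ hbQ
      have hlog : (10 / 9 : ℝ) * Real.log (s.max' hs) ≤ Real.log a := by
        have h1 : Real.log (((s.max' hs : ℕ) : ℝ) ^ 10) ≤ Real.log ((a : ℝ) ^ 9) := by
          apply Real.log_le_log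
          · have : (0:ℝ) < ((s.max' hs : ℕ) : ℝ) := by exact_mod_cast (by omega : 0 < s.max' hs)
            positivity
          · exact_mod_cast hlt.le
        rw [Real.log_pow, Real.log_pow] at h1
        push_cast at h1
        linarith
      rw [Finset.card_insert_of_notMem hane, Nat.add_sub_cancel]
      have hc : s.card = (s.card - 1) + 1 := by
        have := Finset.card_pos.mpr hs
        omega
      rw [hc, pow_succ]
      calc (10 / 9 : ℝ) ^ (s.card - 1) * (10 / 9) * Real.exp 1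
          = (10 / 9) * ((10 / 9 : ℝ) ^ (s.card - 1) * Real.exp 1) := by ring
        _ ≤ (10 / 9) * Real.log (s.max' hs) := by
            apply mul_le_mul_of_nonneg_left ih' (by norm_num)
        _ ≤ Real.log a := hlog
        _ ≤ Real.log T := hlogaT

theorem chain_card (Q : ℕ → Prop) (hQ1 : ∀ x, Q x → 16 ≤ x)
    (hQ2 : ∀ x y, Q x → Q y → x < y → x ^ 10 < y ^ 9) (s : Finset ℕ) (hs : ∀ a ∈ s, Q a)
    (T : ℝ) (hT3 : 3 ≤ T) (hT : ∀ a ∈ s, (a : ℝ) ≤ T) :
    (s.card : ℝ) ≤ 10 * Real.log (Real.log T) := by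
  have hlT : 1 < Real.log T := by
    rw [Real.lt_log_iff_exp_lt (by linarith)]
    have := Real.exp_one_lt_d9
    linarith
  have hll : 0 < Real.log (Real.log T) := Real.log_pos hlT
  rcases s.eq_empty_or_nonempty with he | hne
  · subst he; simp; linarith
  · have hfl : ∀ a ∈ s, a ≤ ⌊T⌋₊ := fun a ha => Nat.le_floor (hT a ha)
    have h1 := chain Q hQ1 hQ2 s hs ⌊T⌋₊ hfl hne
    have hfl0 : (0:ℝ) < (⌊T⌋₊ : ℝ) := by
      obtain ⟨a, ha⟩ := hne
      have := hfl a ha
      have := hQ1 a (hs a ha)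
      exact_mod_cast (by omega : 0 < ⌊T⌋₊)
    have h2 : Real.log (⌊T⌋₊ : ℝ) ≤ Real.log T :=
      Real.log_le_log hfl0 (Nat.floor_le (by linarith))
    have h3 : (10 / 9 : ℝ) ^ (s.card - 1) * Real.exp 1 ≤ Real.log T := h1.trans h2
    have h4 := Real.log_le_log (by positivity) h3
    rw [Real.log_mul (by positivity) (by positivity), Real.log_exp, Real.log_pow] at h4
    have h5 : (1 / 10 : ℝ) ≤ Real.log (10 / 9) := by
      have := Real.one_sub_inv_le_log_of_pos (show (0:ℝ) < 10 / 9 by norm_num)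
      norm_num at this ⊢
      linarith
    have hc : ((s.card - 1 : ℕ) : ℝ) = s.card - 1 := by
      have := Finset.card_pos.mpr hne
      push_cast [Nat.cast_sub (by omega : 1 ≤ s.card)]
      ring
    rw [hc] at h4
    have h6 : (0:ℝ) ≤ (s.card : ℝ) - 1 := by
      have : (1:ℝ) ≤ s.card := by exact_mod_cast Finset.card_pos.mpr hne
      linarith
    nlinarith

theorem fib_le_five (x : ℕ) (hx : ∃ m, x = Nat.fib m) (h5 : x ≤ 5) :
    x ∈ ({0, 1, 2, 3, 5} : Finset ℕ) := by
  obtain ⟨m, rfl⟩ := hx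
  have h4 : Nat.fib m ≠ 4 := by
    intro h
    rcases Nat.lt_or_ge m 5 with hm | hm
    · interval_cases m <;> simp [Nat.fib] at h
    · have := Nat.fib_mono hm
      have h55 : Nat.fib 5 = 5 := by decide
      omega
  simp only [Finset.mem_insert, Finset.mem_singleton]
  omega

theorem count (h : ℕ → ℤ) (h0 : h 0 = 0) (h1 : h 1 = 1)
    (hrec : ∀ n, h (n + 2) = (-1) ^ (Nat.digits 2 (n + 2)).sum * h (n + 1) + h n)
    (T : ℝ) (hT : 3 ≤ T) :
    (({x : ℕ | (S h x) ∧ (x : ℝ) ≤ T}.ncard : ℕ) : ℝ) ≤ 5 + 10 * Real.log (Real.log T) := by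
  classical
  set A : Finset ℕ := (Finset.range (⌊T⌋₊ + 1)).filter (fun x => S h x ∧ 5 < x) with hA
  have hsub : {x : ℕ | (S h x) ∧ (x : ℝ) ≤ T} ⊆ (({0, 1, 2, 3, 5} ∪ A : Finset ℕ) : Set ℕ) := by
    rintro x ⟨hx, hxT⟩
    rw [Finset.coe_union, Set.mem_union]
    rcases le_or_gt x 5 with h5 | h5
    · left; exact fib_le_five x hx.1 h5
    · right
      rw [Finset.mem_coe, hA, Finset.mem_filter, Finset.mem_range]
      exact ⟨Nat.lt_succ_of_le (Nat.le_floor hxT), hx, h5⟩
  have h2 : {x : ℕ | (S h x) ∧ (x : ℝ) ≤ T}.ncard ≤ 5 + A.card := by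
    calc {x : ℕ | (S h x) ∧ (x : ℝ) ≤ T}.ncard
        ≤ ((({0, 1, 2, 3, 5} ∪ A : Finset ℕ) : Set ℕ)).ncard :=
          Set.ncard_le_ncard hsub (Finset.finite_toSet _)
      _ = ({0, 1, 2, 3, 5} ∪ A : Finset ℕ).card := Set.ncard_coe_finset _
      _ ≤ ({0, 1, 2, 3, 5} : Finset ℕ).card + A.card := Finset.card_union_le _ _
      _ = 5 + A.card := by rfl
  have h3 : (A.card : ℝ) ≤ 10 * Real.log (Real.log T) := by
    refine chain_card (fun x => S h x ∧ 5 < x) ?_ ?_ A ?_ T hT ?_
    · rintro x ⟨hx, h5⟩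
      have := big h h0 h1 hrec x hx h5
      norm_num at this
      omega
    · rintro x y ⟨hx, h5⟩ ⟨hy, h5'⟩ hxy
      exact gap_two h h0 h1 hrec x y hx hy hxy h5'
    · intro a ha
      exact (Finset.mem_filter.mp ha).2
    · intro a ha
      have := Finset.mem_range.mp (Finset.mem_filter.mp ha).1
      have h4 : a ≤ ⌊T⌋₊ := Nat.lt_succ_iff.mp this
      calc (a : ℝ) ≤ (⌊T⌋₊ : ℝ) := by exact_mod_cast h4
        _ ≤ T := Nat.floor_le (by linarith)
  have h4 : (({x : ℕ | (S h x) ∧ (x : ℝ) ≤ T}.ncard : ℕ) : ℝ) ≤ 5 + (A.card : ℝ) := by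
    exact_mod_cast h2
  linarith

end Pool.Agent.Lib.MP_b24f15_nt.Gap
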